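import Pool.Agent.J6H32.RP.Rig
import Pool.Agent.R384.Z.Abs

/-!
# Rigidity for all regular primes, two included
-/

set_option autoImplicit false
set_option linter.unusedSectionVars false

namespace Pool.Agent.J6H32.RP

open NumberField
open Pool.Agent.Z384 Pool.Agent.J6H32.SQ
open Pool.Agent.Y715.Red Pool.Agent.Y715.Nr Pool.Agent.W237.RK
open Pool.Agent.Y715.Gi (QB KK GK i₀_mem gk_fix)
open IsLocalRing Matrix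

/-- the pairs `(p, q)`: `p = 2` and `q = ± 3 mod 8`, or `p` odd and regular and `q` a primitive root
modulo `p ^ 2` -/
def GoodPair (p q : ℕ) [Fact p.Prime] : Prop :=
  q.Prime ∧ ((p = 2 ∧ (q % 8 = 3 ∨ q % 8 = 5)) ∨
    (2 < p ∧ (classNumber (CyclotomicField p ℚ)).Coprime p ∧
      orderOf ((q : ℕ) : ZMod (p ^ 2)) = p * (p - 1)))

variable {p : ℕ} [hp : Fact p.Prime]
variable {A : Type*} [CommRing A] [IsLocalRing A] [IsNoetherianRing A] [TopologicalSpace A]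

/-- the class of representations -/
structure Cls (p q n : ℕ) {A : Type*} [CommRing A] [IsLocalRing A] [TopologicalSpace A]
    (ρ : (QB ≃ₐ[ℚ] QB) →* GL (Fin n) A) : Prop where
  cont : ∀ i j, Continuous fun σ => (ρ σ : Matrix (Fin n) (Fin n) A) i j
  res : ∀ σ : QB ≃ₐ[ℚ] QB, (∀ y : QB, y ^ p = 1 → σ y = y) → ∃ M : ℕ,
      InI (maximalIdeal A) (((ρ σ : Matrix (Fin n) (Fin n) A) - 1) ^ M)
  unr : ∀ (l : ℕ) [Fact l.Prime] (ι : QB →ₐ[ℚ] PadicAlgCl l), l ≠ p → l ≠ q →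
      ∀ (σ : QB ≃ₐ[ℚ] QB) (τ : Au l), (∀ x, τ (ι x) = ι (σ x)) → Inert τ → ρ σ = 1

lemma Cls.dsum {q n m : ℕ} {ρ : (QB ≃ₐ[ℚ] QB) →* GL (Fin n) A}
    {ρ' : (QB ≃ₐ[ℚ] QB) →* GL (Fin m) A} (h : Cls p q n ρ) (h' : Cls p q m ρ') :
    Cls p q (n + m) (RP.dsum ρ ρ') where
  cont := dsum_cont h.cont h'.cont
  res σ hσ := dsum_res (h.res σ hσ) (h'.res σ hσ)
  unr l _ ι h1 h2 σ τ h3 h4 := dsum_one (h.unr l ι h1 h2 σ τ h3 h4) (h'.unr l ι h1 h2 σ τ h3 h4)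

/-- **Density.** -/
theorem densAll {q : ℕ} (hg : GoodPair p q) (hA : IsAdic (maximalIdeal A))
    (hfin : Finite (ResidueField A)) (h2 : (p : A) ∈ maximalIdeal A) {n : ℕ}
    {ρ : (QB ≃ₐ[ℚ] QB) →* GL (Fin n) A} (hρ : Cls p q n ρ) (ι₀ : QB →ₐ[ℚ] PadicAlgCl p) (m : ℕ)
    (g : QB ≃ₐ[ℚ] QB) : ∃ δ ∈ DP ι₀, δ⁻¹ * g ∈ cong ρ m := by
  obtain ⟨hq, h | ⟨h1, h3, h4⟩⟩ := hg
  · obtain ⟨rfl, h8⟩ := h
    refine denseQ hA hfin (by exact_mod_cast h2) hρ.cont (fun σ => hρ.res σ fun y hy => ?_)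
      (condQ hq h8 hρ.unr) ι₀ m g
    have hy' : y * y = 1 := by rw [← sq]; exact hy
    rcases mul_self_eq_one_iff.1 hy' with h | h
    · rw [h, map_one]
    · rw [h, map_neg, map_one]
  · have hne : NeZero ((p : ℕ) : QB) := ⟨by exact_mod_cast hp.out.ne_zero⟩
    obtain ⟨z, hz⟩ : ∃ z : QB, IsPrimitiveRoot z p :=
      HasEnoughRootsOfUnity.exists_primitiveRoot QB p
    refine densP hz h1 h3 hq h4 hA hfin h2 hρ.cont (fun σ hσ => hρ.res σ fun y hy => ?_) hρ.unr ι₀ m g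
    obtain ⟨i, _, hi⟩ := hz.eq_pow_of_pow_eq_one hy
    rw [← hi, map_pow, hσ]

variable {F : Type*} [Field F] [Algebra A F] [IsFractionRing A F]

/-- **Stable subspaces.** -/
theorem subAll {q : ℕ} (hg : GoodPair p q) (hA : IsAdic (maximalIdeal A))
    (hfin : Finite (ResidueField A)) (h2 : (p : A) ∈ maximalIdeal A) {n : ℕ}
    {ρ : (QB ≃ₐ[ℚ] QB) →* GL (Fin n) A} (hρ : Cls p q n ρ) (ι₀ : QB →ₐ[ℚ] PadicAlgCl p)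
    {W : Submodule F (Fin n → F)}
    (hD : ∀ δ ∈ DP ι₀, ∀ w ∈ W, act F ρ δ w ∈ W) (g : QB ≃ₐ[ℚ] QB) :
    ∀ w ∈ W, act F ρ g w ∈ W := by
  have hD' : DP ι₀ ≤ stb ρ W := by
    intro δ hδ w
    refine ⟨hD δ hδ w, fun hw => ?_⟩
    have := hD δ⁻¹ (inv_mem hδ) _ hw
    rwa [← act_mul, inv_mul_cancel, act_one] at this
  intro w hw
  exact (stb_of_lim ρ W hD' (fun m => densAll hg hA hfin h2 hρ ι₀ m g) w).1 hw

/-- **Homomorphisms.** -/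
theorem homAll {q : ℕ} (hg : GoodPair p q) (hA : IsAdic (maximalIdeal A))
    (hfin : Finite (ResidueField A)) (h2 : (p : A) ∈ maximalIdeal A) {n n' : ℕ}
    {ρ : (QB ≃ₐ[ℚ] QB) →* GL (Fin n) A} (hρ : Cls p q n ρ)
    {ρ' : (QB ≃ₐ[ℚ] QB) →* GL (Fin n') A} (hρ' : Cls p q n' ρ') (ι₀ : QB →ₐ[ℚ] PadicAlgCl p)
    {T : Matrix (Fin n') (Fin n) F}
    (hD : ∀ δ ∈ DP ι₀, T * mt F ρ δ = mt F ρ' δ * T) (g : QB ≃ₐ[ℚ] QB) :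
    T * mt F ρ g = mt F ρ' g * T :=
  grf_iff.1 (subAll hg hA hfin h2 (hρ.dsum hρ') ι₀ (fun δ hδ => grf_iff.2 (hD δ hδ)) g)

/-- **Potential isomorphisms.** -/
theorem rigAll {q : ℕ} (hg : GoodPair p q) (hA : IsAdic (maximalIdeal A))
    (hfin : Finite (ResidueField A)) (h2 : (p : A) ∈ maximalIdeal A) {n : ℕ}
    {ρ : (QB ≃ₐ[ℚ] QB) →* GL (Fin n) A} (hρ : Cls p q n ρ)
    {ρ' : (QB ≃ₐ[ℚ] QB) →* GL (Fin n) A} (hρ' : Cls p q n ρ') (ι₀ : QB →ₐ[ℚ] PadicAlgCl p)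
    {D' : Subgroup (QB ≃ₐ[ℚ] QB)} {R : Set (QB ≃ₐ[ℚ] QB)} (hRf : R.Finite)
    (hR : ∀ δ ∈ DP ι₀, ∃ r ∈ R, r⁻¹ * δ ∈ D')
    {T : Matrix (Fin n) (Fin n) F} (hT : IsUnit T)
    (hD' : ∀ δ ∈ D', T * mt F ρ δ = mt F ρ' δ * T)
    (hirr : ∀ U : Subgroup (QB ≃ₐ[ℚ] QB), IsOpen (U : Set (QB ≃ₐ[ℚ] QB)) →
      ∀ X : Matrix (Fin n) (Fin n) F,
      (∀ σ ∈ U, X * mt F ρ σ = mt F ρ σ * X) → ∃ c : F, X = c • 1) :
    ∃ χ : (QB ≃ₐ[ℚ] QB) →* Fˣ, IsOpen (χ.ker : Set (QB ≃ₐ[ℚ] QB)) ∧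
      ∀ σ, T * mt F ρ σ = (χ σ : F) • (mt F ρ' σ * T) :=
  rig hA hρ.cont hρ'.cont (D := DP ι₀) (densAll hg hA hfin h2 (hρ.dsum hρ') ι₀)
    hRf hR hT hD' hirr

end Pool.Agent.J6H32.RP
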