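import Pool.Agent.J6H32.RP.Glob

/-!
# The core: characters of order `p` of `ℚ(ζ_p)` unramified outside a prime `q` and trivial at `p`
-/

set_option autoImplicit false
set_option linter.unusedSectionVars false

namespace Pool.Agent.J6H32.RP

open NumberField IsDedekindDomain WithZero Pool.Agent.Y158.KL
open Pool.Agent.Y715.Nr (Au nrm)
open Pool.Agent.Y715.Gi (QB)

section arith

variable {p : ℕ} [hp : Fact p.Prime]

/-- the order modulo `p` -/
lemma order_mod {q : ℕ} (hq : orderOf ((q : ℕ) : ZMod (p ^ 2)) = p * (p - 1)) :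
    orderOf ((q : ℕ) : ZMod p) = p - 1 := by
  have h2 := hp.out.two_le
  have hpos : 0 < orderOf ((q : ℕ) : ZMod (p ^ 2)) := by
    rw [hq]; exact Nat.mul_pos hp.out.pos (by omega)
  have hdvd : p ∣ p ^ 2 := dvd_pow_self p two_ne_zero
  set f : ZMod (p ^ 2) →+* ZMod p := ZMod.castHom hdvd (ZMod p) with hf
  have hfq : f ((q : ℕ) : ZMod (p ^ 2)) = ((q : ℕ) : ZMod p) := map_natCast f q
  -- `q` is a unit modulo `p`
  have hq0 : ((q : ℕ) : ZMod p) ≠ 0 := by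
    intro h
    have h1 := pow_orderOf_eq_one ((q : ℕ) : ZMod (p ^ 2))
    have h3 := congrArg f h1
    rw [map_pow, hfq, h, map_one, zero_pow hpos.ne'] at h3
    exact zero_ne_one h3
  have h3 : orderOf ((q : ℕ) : ZMod p) ∣ p - 1 :=
    orderOf_dvd_of_pow_eq_one (ZMod.pow_card_sub_one_eq_one hq0)
  set d := orderOf ((q : ℕ) : ZMod p) with hd
  have h4 : ((q : ℕ) : ZMod (p ^ 2)) ^ (d * p) = 1 := by
    have h5 : (p : ℤ) ∣ (q : ℤ) ^ d - 1 := by
      rw [← ZMod.intCast_zmod_eq_zero_iff_dvd]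
      · push_cast
        rw [hd, pow_orderOf_eq_one, sub_self]
      
    obtain ⟨c, hc⟩ := h5
    have h6 : (q : ℤ) ^ d = 1 + p * c := by linarith
    have h7 : ((p ^ 2 : ℕ) : ℤ) ∣ (q : ℤ) ^ (d * p) - 1 := by
      have h8 : ((p : ℤ) ^ (1 + 1)) ∣ ((q : ℤ) ^ d) ^ p ^ 1 - 1 ^ p ^ 1 :=
        dvd_sub_pow_of_dvd_sub (by rw [h6]; exact ⟨c, by ring⟩) 1
      rw [pow_one, one_pow, ← pow_mul] at h8
      exact_mod_cast h8
    rw [← ZMod.intCast_zmod_eq_zero_iff_dvd] at h7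
    · push_cast at h7
      exact sub_eq_zero.1 h7
  have h5 := orderOf_dvd_of_pow_eq_one h4
  rw [hq, mul_comm d p] at h5
  have h6 : p - 1 ∣ d := Nat.dvd_of_mul_dvd_mul_left hp.out.pos h5
  exact Nat.dvd_antisymm h3 h6

/-- local `p`-th powers -/
lemma dvd_of_pow {q : ℕ} (hqp : q.Prime) (hq : orderOf ((q : ℕ) : ZMod (p ^ 2)) = p * (p - 1))
    {k : ℤ} {c : ℚ_[p]} (h : c ^ p = (q : ℚ_[p]) ^ (k * ((p - 1 : ℕ) : ℤ))) : (p : ℤ) ∣ k := by
  have h2 := hp.out.two_le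
  have hpq : ¬ p ∣ q := by
    intro hdvd
    have h1 := order_mod hq
    have h3 : ((q : ℕ) : ZMod p) = 0 := (ZMod.natCast_eq_zero_iff _ _).2 hdvd
    rw [h3] at h1
    have h4 := pow_orderOf_eq_one (0 : ZMod p)
    rw [h1, zero_pow (by omega)] at h4
    exact zero_ne_one h4
  have hqn : ‖(q : ℚ_[p])‖ = 1 := by
    have h1 := (PadicInt.norm_int_lt_one_iff_dvd (p := p) (q : ℤ)).not.2
      (fun h => hpq (by exact_mod_cast h))
    have h3 : ‖((q : ℤ) : ℤ_[p])‖ ≤ 1 := PadicInt.norm_le_one _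
    have h4 : ‖((q : ℤ) : ℤ_[p])‖ = 1 := le_antisymm h3 (not_lt.1 h1)
    rw [PadicInt.norm_def] at h4
    push_cast at h4
    exact h4
  have hq0 : (q : ℚ_[p]) ≠ 0 := by exact_mod_cast hqp.ne_zero
  -- a natural exponent
  obtain ⟨c', hc'⟩ : ∃ c' : ℚ_[p], c' ^ p = (q : ℚ_[p]) ^ (k.natAbs * (p - 1)) := by
    rcases Int.natAbs_eq k with h1 | h1
    · refine ⟨c, ?_⟩
      rw [h, h1]
      rw [Int.natAbs_natCast, ← Nat.cast_mul, zpow_natCast]
    · refine ⟨c⁻¹, ?_⟩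
      rw [inv_pow, h, ← zpow_neg, h1, Int.natAbs_neg, Int.natAbs_natCast, neg_mul, neg_neg,
        ← Nat.cast_mul, zpow_natCast]
  have hcn : ‖c'‖ = 1 := by
    have h1 : ‖c'‖ ^ p = 1 := by rw [← norm_pow, hc', norm_pow, hqn, one_pow]
    exact (pow_eq_one_iff_of_nonneg (norm_nonneg _) hp.out.ne_zero).1 h1
  let y : ℤ_[p] := ⟨c', hcn.le⟩
  have hy : y ^ p = (q : ℤ_[p]) ^ (k.natAbs * (p - 1)) := by
    apply PadicInt.ext
    push_cast
    exact hc'
  have hw := congrArg (PadicInt.toZModPow 2) hy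
  rw [map_pow, map_pow, map_natCast] at hw
  set w := PadicInt.toZModPow 2 y with hwdef
  have hqu : IsUnit ((q : ℕ) : ZMod (p ^ 2)) := by
    rw [ZMod.isUnit_iff_coprime]
    exact Nat.Coprime.pow_right 2 (((Nat.coprime_primes hp.out hqp).2 (fun h1 => hpq (h1 ▸ dvd_rfl))).symm)
  have hwu : IsUnit w := by
    rw [← isUnit_pow_iff hp.out.ne_zero, hw]
    exact hqu.pow _
  have hw1 : w ^ (p * (p - 1)) = 1 := by
    have h1 := ZMod.pow_totient hwu.unit
    rw [Nat.totient_prime_pow hp.out two_pos] at h1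
    have h3 := congrArg (fun u : (ZMod (p ^ 2))ˣ => (u : ZMod (p ^ 2))) h1
    simpa using h3
  have h3 : ((q : ℕ) : ZMod (p ^ 2)) ^ (k.natAbs * (p - 1) * (p - 1)) = 1 := by
    rw [pow_mul, ← hw, ← pow_mul, hw1]
  have h4 := orderOf_dvd_of_pow_eq_one h3
  rw [hq] at h4
  have h5 : p ∣ k.natAbs * (p - 1) := Nat.dvd_of_mul_dvd_mul_right (by omega) h4
  have h6 : Nat.Coprime p (p - 1) := by
    rw [Nat.Prime.coprime_iff_not_dvd hp.out]
    intro h7
    exact absurd (Nat.le_of_dvd (by omega) h7) (by omega)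
  have h7 := h6.dvd_of_dvd_mul_right h5
  exact Int.natCast_dvd.2 h7

end arith

end Pool.Agent.J6H32.RP
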