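import Pool.Agent.J6H32.RP.Core

/-!
# The core: elements of `ℚ(ζ_p)` which are locally `p`-th powers
-/

set_option autoImplicit false
set_option linter.unusedSectionVars false

namespace Pool.Agent.J6H32.RP

open NumberField IsDedekindDomain WithZero Pool.Agent.Y158.KL
open Pool.Agent.Y715.Nr (Au nrm fix_mem)
open Pool.Agent.Y715.Gi (QB)

variable {p : ℕ} [hp : Fact p.Prime] {K : Type} [Field K] [NumberField K]
  [hK : IsCyclotomicExtension {p} ℚ K] {ζ : K} (hζ : IsPrimitiveRoot ζ p)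

section places

include hK in
lemma galK : IsGalois ℚ K := IsCyclotomicExtension.isGalois {p} ℚ K

include hζ in
/-- the place above `p` -/
lemma lam_of_mem {v : HeightOneSpectrum (𝓞 K)} (hv : (p : 𝓞 K) ∈ v.asIdeal) : v = lam hζ := by
  by_contra hne
  have h1 := other_pi hζ hne
  rw [HeightOneSpectrum.intValuation_eq_one_iff] at h1
  apply h1
  have h2 : (hζ.toInteger - 1) ^ (p - 1) ∈ v.asIdeal := by
    obtain ⟨u, hu⟩ := (IsCyclotomicExtension.Rat.associated_zeta_sub_one_pow_prime p hζ).symm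
    rw [← hu]
    exact Ideal.mul_mem_right _ _ hv
  exact v.isPrime.mem_of_pow_mem _ h2

include hζ in
/-- the place above `p` is given by every embedding -/
lemma ctr_lam (φ : K →+* PadicAlgCl p) : Ctr φ (lam hζ) := by
  have hle : (lam hζ).asIdeal ≤ idl φ := by
    show Ideal.span {hζ.toInteger - 1} ≤ idl φ
    rw [Ideal.span_singleton_le_iff_mem, mem_idl]
    have h1 : ((hζ.toInteger - 1 : 𝓞 K) : K) = ζ - 1 := by
      show algebraMap (𝓞 K) K (hζ.toInteger - 1) = ζ - 1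
      rw [map_sub, map_one]
      rfl
    rw [h1, map_sub, map_one]
    exact pi_lt (hζ.map_of_injective φ.injective)
  have h2 := (lam hζ).isMaximal.eq_of_le (idl_prime φ).ne_top hle
  intro x
  rw [h2, mem_idl]

include hζ in
lemma lam_unif : (lam hζ).valuation K (ζ - 1) = exp (-1 : ℤ) := by
  have h1 : ((hζ.toInteger - 1 : 𝓞 K) : K) = ζ - 1 := by
    show algebraMap (𝓞 K) K (hζ.toInteger - 1) = ζ - 1
    rw [map_sub, map_one]
    rfl
  rw [← h1, HeightOneSpectrum.valuation_of_algebraMap]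
  exact lam_pi hζ

/-- the place above `q` -/
lemma q_place {q : ℕ} (hq : q.Prime) (hord : orderOf ((q : ℕ) : ZMod p) = p - 1) (hqp : q ≠ p)
    {v : HeightOneSpectrum (𝓞 K)} (hv : (q : 𝓞 K) ∈ v.asIdeal) :
    v.asIdeal = Ideal.span {(q : 𝓞 K)} := by
  have : Fact q.Prime := ⟨hq⟩
  have : NeZero p := ⟨hp.out.ne_zero⟩
  have hv' := v.isPrime
  have hle : Ideal.span {(q : 𝓞 K)} ≤ v.asIdeal := by
    rwa [Ideal.span_singleton_le_iff_mem]
  have hlies : v.asIdeal.LiesOver (Ideal.span {(q : ℤ)}) := ⟨(under_eq hq hv' hv).symm⟩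
  have h1 := IsCyclotomicExtension.Rat.inertiaDeg_eq_of_not_dvd (m := p) q K v.asIdeal
    (fun h => hqp ((Nat.prime_dvd_prime_iff_eq hq hp.out).1 h))
  have h2 := Ideal.pow_inertiaDeg q v.asIdeal
  rw [h1, hord] at h2
  have h3 : Ideal.absNorm (Ideal.span {(q : 𝓞 K)}) = q ^ (p - 1) := by
    rw [Ideal.absNorm_span_natCast, RingOfIntegers.rank,
      IsCyclotomicExtension.Rat.finrank p K, Nat.totient_prime hp.out]
  obtain ⟨J, hJ⟩ := Ideal.dvd_iff_le.2 hle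
  have h4 := congrArg Ideal.absNorm hJ
  rw [map_mul, h3, ← h2] at h4
  have h5 : Ideal.absNorm J = 1 := by
    have hpos : 0 < q ^ (p - 1) := pow_pos hq.pos _
    exact (Nat.eq_of_mul_eq_mul_left hpos (by rw [mul_one]; exact h4)).symm
  rw [Ideal.absNorm_eq_one_iff] at h5
  rw [hJ, h5, Ideal.mul_top]

end places

section ext

variable [Algebra K QB] [Algebra.IsAlgebraic K QB]

/-- extension of embeddings -/
lemma exists_ext {l : ℕ} [Fact l.Prime] (φ : K →+* PadicAlgCl l) :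
    ∃ ι : QB →ₐ[ℚ] PadicAlgCl l, ∀ x : K, ι (algebraMap K QB x) = φ x := by
  let _ : Algebra K (PadicAlgCl l) := φ.toAlgebra
  let ψ : QB →ₐ[K] PadicAlgCl l := IsAlgClosed.lift
  exact ⟨ψ.toRingHom.toRatAlgHom, fun x => ψ.commutes x⟩

include hK in
/-- places away from `p` and `q` -/
lemma val_other {q : ℕ} {t : QB} (ht0 : t ≠ 0) {α : K} (hα : t ^ p = algebraMap K QB α)
    (hur : ∀ (l : ℕ) [Fact l.Prime] (ι : QB →ₐ[ℚ] PadicAlgCl l), l ≠ p → l ≠ q →
      ∃ m : ℤ, ‖ι t‖ = (l : ℝ) ^ m) {v : HeightOneSpectrum (𝓞 K)}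
    (hvp : (p : 𝓞 K) ∉ v.asIdeal) (hvq : (q : 𝓞 K) ∉ v.asIdeal) :
    ∃ n : ℤ, v.valuation K α = exp ((p : ℤ) * n) := by
  have hgal : IsGalois ℚ K := galK (p := p)
  obtain ⟨l, hl, hlv⟩ := exists_prime v
  have hlf : Fact l.Prime := ⟨hl⟩
  have hlp : l ≠ p := fun h => hvp (h ▸ hlv)
  have hlq : l ≠ q := fun h => hvq (h ▸ hlv)
  obtain ⟨φ, hφ⟩ := exists_ctr hlv
  obtain ⟨ι, hι⟩ := exists_ext φ
  obtain ⟨ϖ, hϖ⟩ := v.valuation_exists_uniformizer K
  obtain ⟨c0, c1⟩ := hφ.pos hϖ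
  have hα0 : α ≠ 0 := by
    rintro rfl
    rw [map_zero] at hα
    exact ht0 (pow_eq_zero_iff hp.out.ne_zero |>.1 hα)
  obtain ⟨k, hk⟩ := exists_val (v := v) hα0
  obtain ⟨e, he⟩ := exists_val (v := v) (x := (l : K)) (by exact_mod_cast hl.ne_zero)
  have h1 := hφ.val hϖ hk
  have h2 := hφ.val hϖ he
  rw [map_natCast, norm_p] at h2
  obtain ⟨m, hm⟩ := hur l ι hlp hlq
  have h3 : ‖φ α‖ = (l : ℝ) ^ (m * p) := by
    rw [← hι, ← hα, map_pow, norm_pow, hm, zpow_mul, zpow_natCast]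
  have h4 : (l : ℝ) = ‖φ ϖ‖ ^ (-e) := by rw [zpow_neg, ← h2, inv_inv]
  rw [h1, h4, ← zpow_mul] at h3
  have h5 : k = -e * (m * p) := zpow_right_injective₀ c0 c1.ne h3
  refine ⟨e * m, ?_⟩
  rw [hk, h5]
  congr 1
  ring

include hζ in
/-- the place above `p` -/
lemma val_lam {t : QB} (ht0 : t ≠ 0) {α : K} (hα : t ^ p = algebraMap K QB α)
    (ι₀ : QB →ₐ[ℚ] PadicAlgCl p)
    (hD : ∀ τ : Au p, τ (ι₀ (algebraMap K QB ζ)) = ι₀ (algebraMap K QB ζ) → τ (ι₀ t) = ι₀ t) :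
    ∃ n : ℤ, (lam hζ).valuation K α = exp ((p : ℤ) * n) := by
  set φ : K →+* PadicAlgCl p := (ι₀ : QB →+* PadicAlgCl p).comp (algebraMap K QB) with hφdef
  have hφ := ctr_lam hζ φ
  have hz : IsPrimitiveRoot (φ ζ) p := hζ.map_of_injective φ.injective
  have hα0 : α ≠ 0 := by
    rintro rfl
    rw [map_zero] at hα
    exact ht0 (pow_eq_zero_iff hp.out.ne_zero |>.1 hα)
  obtain ⟨k, hk⟩ := exists_val (v := lam hζ) hα0
  have h1 := hφ.val (lam_unif hζ) hk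
  rw [map_sub, map_one] at h1
  obtain ⟨m, hm⟩ := L1 hz (x := ι₀ t) ((map_ne_zero ι₀).2 ht0) hD
  have h3 : ‖φ α‖ = ‖φ ζ - 1‖ ^ (m * p) := by
    have e : φ α = (ι₀ t) ^ p := by rw [← map_pow, hα]; rfl
    rw [e, norm_pow, hm, zpow_mul, zpow_natCast]
  rw [h1] at h3
  have h5 : k = m * p := zpow_right_injective₀ (pi_pos hz) (pi_lt hz).ne h3
  refine ⟨-m, ?_⟩
  rw [hk, h5]
  congr 1
  ring

end ext

end Pool.Agent.J6H32.RP
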