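import Pool.Agent.J6H32.RP.Core2

/-!
# The core theorem
-/

set_option autoImplicit false
set_option linter.unusedSectionVars false

namespace Pool.Agent.J6H32.RP

open NumberField IsDedekindDomain WithZero Pool.Agent.Y158.KL
open Pool.Agent.Y715.Nr (Au nrm fix_mem)
open Pool.Agent.Y715.Gi (QB)

variable {p : ℕ} [hp : Fact p.Prime] {K : Type} [Field K] [NumberField K]
  [hK : IsCyclotomicExtension {p} ℚ K] {ζ : K} (hζ : IsPrimitiveRoot ζ p)

include hζ in
/-- homomorphisms are determined by the value at `ζ` -/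
lemma hom_eq {R : Type} [Field R] [CharZero R] (f g : K →+* R) (h : f ζ = g ζ) : f = g := by
  have : NeZero p := ⟨hp.out.ne_zero⟩
  have h1 : f.toRatAlgHom = g.toRatAlgHom := by
    refine (hζ.powerBasis ℚ).algHom_ext ?_
    rw [IsPrimitiveRoot.powerBasis_gen]
    exact h
  ext x
  exact DFunLike.congr_fun h1 x

include hζ in
/-- automorphisms of the cyclotomic field -/
lemma exists_aut {ξ : K} (hξ : IsPrimitiveRoot ξ p) : ∃ g : K ≃ₐ[ℚ] K, g ζ = ξ := by
  have hgal : IsGalois ℚ K := galK (p := p)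
  have hconj : IsConjRoot ℚ ξ ζ := by
    rw [isConjRoot_def, ← Polynomial.cyclotomic_eq_minpoly_rat hζ hp.out.pos,
      ← Polynomial.cyclotomic_eq_minpoly_rat hξ hp.out.pos]
  exact isConjRoot_iff_exists_algEquiv.1 hconj

include hζ in
/-- the local norm -/
lemma local_norm (φ : K →+* PadicAlgCl p) {x : PadicAlgCl p} {α : K} (hx : x ^ p = φ α)
    (hD : ∀ τ : Au p, τ (φ ζ) = φ ζ → τ x = x) :
    ∃ y : ℚ_[p], y ^ p = ((Algebra.norm ℚ α : ℚ) : ℚ_[p]) := by
  classical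
  have hgal : IsGalois ℚ K := galK (p := p)
  have hz : IsPrimitiveRoot (φ ζ) p := hζ.map_of_injective φ.injective
  have hτ : ∀ g : K ≃ₐ[ℚ] K, ∃ τ : Au p, ∀ a : K, τ (φ a) = φ (g a) := by
    intro g
    obtain ⟨τ, hτ⟩ := surj hz (y := φ (g ζ))
      ((hζ.map_of_injective (f := (g : K →+* K)) g.injective).map_of_injective φ.injective)
    refine ⟨τ, fun a => ?_⟩
    have := hom_eq hζ ((τ : PadicAlgCl p →+* PadicAlgCl p).comp φ) (φ.comp (g : K →+* K)) hτ
    exact DFunLike.congr_fun this a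
  choose τ hτ using hτ
  set P : PadicAlgCl p := ∏ g : K ≃ₐ[ℚ] K, τ g x with hP
  have hfix : ∀ σ : Au p, σ P = P := by
    intro σ
    obtain ⟨i, -, hi⟩ := hz.eq_pow_of_pow_eq_one (ξ := σ (φ ζ)) (by
      rw [← map_pow, ← map_pow, hζ.pow_eq_one, map_one, map_one])
    have hprim : IsPrimitiveRoot (ζ ^ i) p := by
      have h1 : IsPrimitiveRoot (σ (φ ζ)) p :=
        hz.map_of_injective (f := (σ : PadicAlgCl p →+* PadicAlgCl p)) σ.injective
      rw [← hi, ← map_pow] at h1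
      exact IsPrimitiveRoot.of_map_of_injective h1 φ.injective
    obtain ⟨g', hg'⟩ := exists_aut hζ hprim
    have hσ : ∀ a : K, σ (φ a) = φ (g' a) := by
      intro a
      have := hom_eq hζ ((σ : PadicAlgCl p →+* PadicAlgCl p).comp φ) (φ.comp (g' : K →+* K))
        (by show σ (φ ζ) = φ (g' ζ); rw [hg', map_pow, hi])
      exact DFunLike.congr_fun this a
    rw [hP, map_prod]
    refine Fintype.prod_equiv (Equiv.mulLeft g') _ _ fun g => ?_
    have h1 : ((τ (g' * g))⁻¹ * (σ * τ g)) x = x := by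
      apply hD
      rw [AlgEquiv.mul_apply, AlgEquiv.mul_apply, hτ, hσ]
      have h2 : φ (g' (g ζ)) = τ (g' * g) (φ ζ) := by rw [hτ]; rfl
      rw [h2, ← AlgEquiv.mul_apply, inv_mul_cancel, AlgEquiv.one_apply]
    have h3 := congrArg (τ (g' * g)) h1
    rw [← AlgEquiv.mul_apply, mul_inv_cancel_left] at h3
    exact h3
  obtain ⟨y, hy⟩ := fix_mem hfix
  refine ⟨y, ?_⟩
  apply (algebraMap ℚ_[p] (PadicAlgCl p)).injective
  rw [map_pow, hy, hP, ← Finset.prod_pow, map_ratCast]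
  have h1 : ∀ g : K ≃ₐ[ℚ] K, (τ g x) ^ p = φ (g α) := by
    intro g
    rw [← map_pow, hx, hτ]
  rw [Finset.prod_congr rfl fun g _ => h1 g, ← map_prod,
    ← Algebra.norm_eq_prod_automorphisms ℚ α]
  rw [eq_ratCast (algebraMap ℚ K), map_ratCast]

include hζ in
/-- **The core theorem.** -/
theorem core [Algebra K QB] [Algebra.IsAlgebraic K QB] (hp2 : 2 < p)
    (hreg : (classNumber K).Coprime p) {q : ℕ} (hq : q.Prime)
    (hord : orderOf ((q : ℕ) : ZMod (p ^ 2)) = p * (p - 1))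
    {t : QB} (ht0 : t ≠ 0) {α : K} (hα : t ^ p = algebraMap K QB α)
    (hur : ∀ (l : ℕ) [Fact l.Prime] (ι : QB →ₐ[ℚ] PadicAlgCl l), l ≠ p → l ≠ q →
      ∃ m : ℤ, ‖ι t‖ = (l : ℝ) ^ m)
    (ι₀ : QB →ₐ[ℚ] PadicAlgCl p)
    (hD : ∀ τ : Au p, τ (ι₀ (algebraMap K QB ζ)) = ι₀ (algebraMap K QB ζ) → τ (ι₀ t) = ι₀ t) :
    ∃ c : K, t = algebraMap K QB c := by
  classical
  have hNZ : NeZero p := ⟨hp.out.ne_zero⟩
  have hgal : IsGalois ℚ K := galK (p := p)
  have hord1 := order_mod hord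
  have hodd : Odd p := hp.out.odd_of_ne_two (by omega)
  have hqp : q ≠ p := by
    rintro rfl
    rw [ZMod.natCast_self] at hord1
    have h4 := pow_orderOf_eq_one (0 : ZMod q)
    rw [hord1, zero_pow (by omega)] at h4
    exact zero_ne_one h4
  set φ : K →+* PadicAlgCl p := (ι₀ : QB →+* PadicAlgCl p).comp (algebraMap K QB) with hφdef
  have hφ := ctr_lam hζ φ
  have hz : IsPrimitiveRoot (φ ζ) p := hζ.map_of_injective φ.injective
  have hα0 : α ≠ 0 := by
    rintro rfl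
    rw [map_zero] at hα
    exact ht0 (pow_eq_zero_iff hp.out.ne_zero |>.1 hα)
  -- the place above `q`
  have hq0 : (q : 𝓞 K) ≠ 0 := by exact_mod_cast hq.ne_zero
  have hqK : (q : K) ≠ 0 := by exact_mod_cast hq.ne_zero
  have hcoe : algebraMap (𝓞 K) K (q : 𝓞 K) = (q : K) := map_natCast (algebraMap (𝓞 K) K) q
  obtain ⟨vq, hvq⟩ : ∃ v : HeightOneSpectrum (𝓞 K), (q : 𝓞 K) ∈ v.asIdeal := by
    have hne : Ideal.span {(q : 𝓞 K)} ≠ ⊤ := by
      intro h
      have h1 := (Ideal.absNorm_eq_one_iff (I := Ideal.span {(q : 𝓞 K)})).2 h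
      rw [Ideal.absNorm_span_natCast, RingOfIntegers.rank, IsCyclotomicExtension.Rat.finrank p K,
        Nat.totient_prime hp.out] at h1
      have h2 : 1 < q ^ (p - 1) := Nat.one_lt_pow (by omega) hq.one_lt
      omega
    obtain ⟨M, hM, hle⟩ := Ideal.exists_le_maximal _ hne
    have hqM : (q : 𝓞 K) ∈ M := hle (Ideal.mem_span_singleton_self _)
    exact ⟨⟨M, hM.isPrime, fun h => hq0 (by rw [h, Ideal.mem_bot] at hqM; exact hqM)⟩, hqM⟩
  obtain ⟨k, hk⟩ := exists_val (v := vq) hα0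
  -- the corrected number
  have hval : ∀ v : HeightOneSpectrum (𝓞 K), ∃ τ : WithZero (Multiplicative ℤ),
      v.valuation K (α * ((q : K) ^ k)⁻¹) = τ ^ p := by
    intro v
    by_cases hv : (q : 𝓞 K) ∈ v.asIdeal
    · have h1 : v = vq := by
        apply HeightOneSpectrum.ext
        rw [q_place hq hord1 hqp hv, q_place hq hord1 hqp hvq]
      subst h1
      have h2 : v.valuation K (q : K) = exp (-1 : ℤ) := by
        rw [← hcoe, HeightOneSpectrum.valuation_of_algebraMap]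
        exact v.intValuation_singleton hq0 (q_place hq hord1 hqp hv)
      refine ⟨1, ?_⟩
      rw [map_mul, map_inv₀, map_zpow₀, hk, h2, ← exp_zsmul, ← exp_neg, ← exp_add, one_pow]
      simp
    · have h2 : v.valuation K (q : K) = 1 := by
        rw [← hcoe]
        exact (HeightOneSpectrum.valuation_eq_one_iff_notMem (K := K) v).2 hv
      have h3 : ∃ n : ℤ, v.valuation K α = exp ((p : ℤ) * n) := by
        by_cases hvp : (p : 𝓞 K) ∈ v.asIdeal
        · rw [lam_of_mem hζ hvp]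
          exact val_lam hζ ht0 hα ι₀ hD
        · exact val_other ht0 hα hur hvp hv
      obtain ⟨n, hn⟩ := h3
      refine ⟨exp n, ?_⟩
      rw [map_mul, map_inv₀, map_zpow₀, h2, one_zpow, inv_one, mul_one, hn, exp_pow]
  obtain ⟨u, a, ha0, hua⟩ := exists_unit_mul_pow hp.out.pos hreg (α * ((q : K) ^ k)⁻¹)
    (mul_ne_zero hα0 (inv_ne_zero (zpow_ne_zero _ hqK))) hval
  have hα2 : α = algebraMap (𝓞 K) K u * (q : K) ^ k * a ^ p := by
    have h1 : (q : K) ^ k ≠ 0 := zpow_ne_zero _ hqK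
    field_simp at hua
    rw [hua]
    ring
  -- the exponent of `q`
  have hpk : (p : ℤ) ∣ k := by
    obtain ⟨y, hy⟩ := local_norm hζ φ (x := ι₀ t) (α := α) (by
      rw [← map_pow, hα]; rfl) hD
    have hnu : (Algebra.norm ℚ (algebraMap (𝓞 K) K u)) ^ p =
        Algebra.norm ℚ (algebraMap (𝓞 K) K u) := by
      have h1 := (NumberField.isUnit_iff_norm (x := (u : 𝓞 K))).1 u.isUnit
      have h2 : |Algebra.norm ℚ (algebraMap (𝓞 K) K u)| = 1 := h1
      rcases eq_or_eq_neg_of_abs_eq h2 with h3 | h3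
      · rw [h3, one_pow]
      · rw [h3, hodd.neg_one_pow]
    have hnq : Algebra.norm ℚ ((q : K) ^ k) = (q : ℚ) ^ (k * ((p - 1 : ℕ) : ℤ)) := by
      have h1 : (q : K) ^ k = algebraMap ℚ K ((q : ℚ) ^ k) := by
        rw [map_zpow₀, map_natCast]
      rw [h1, Algebra.norm_algebraMap, IsCyclotomicExtension.Rat.finrank p K,
        Nat.totient_prime hp.out, zpow_mul, zpow_natCast]
    have hna : Algebra.norm ℚ a ≠ 0 := Algebra.norm_ne_zero_iff.2 ha0
    have hnu0 : Algebra.norm ℚ (algebraMap (𝓞 K) K u) ≠ 0 := by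
      intro h
      have h1 := (NumberField.isUnit_iff_norm (x := (u : 𝓞 K))).1 u.isUnit
      have h2 : |Algebra.norm ℚ (algebraMap (𝓞 K) K u)| = 1 := h1
      rw [h, abs_zero] at h2
      exact zero_ne_one h2
    set b : ℚ := Algebra.norm ℚ (algebraMap (𝓞 K) K u) * Algebra.norm ℚ a with hb
    have hb0 : b ≠ 0 := mul_ne_zero hnu0 hna
    have hnα : Algebra.norm ℚ α = (q : ℚ) ^ (k * ((p - 1 : ℕ) : ℤ)) * b ^ p := by
      rw [hα2, map_mul, map_mul, map_pow, hnq, hb, mul_pow, hnu]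
      ring
    refine dvd_of_pow hq hord (c := y / (b : ℚ_[p])) ?_
    have hb0' : (b : ℚ_[p]) ≠ 0 := by exact_mod_cast hb0
    rw [div_pow, hy, hnα]
    push_cast
    field_simp
  obtain ⟨k₁, rfl⟩ := hpk
  -- the unit
  set a₁ : K := (q : K) ^ k₁ * a with ha₁
  have ha₁0 : a₁ ≠ 0 := mul_ne_zero (zpow_ne_zero _ hqK) ha0
  have hα3 : α = algebraMap (𝓞 K) K u * a₁ ^ p := by
    rw [hα2, ha₁, mul_pow, ← zpow_natCast ((q : K) ^ k₁), ← zpow_mul, mul_comm k₁]
    ring
  clear_value a₁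
  have ha₁' : algebraMap K QB a₁ ≠ 0 := (map_ne_zero _).2 ha₁0
  set w : QB := t / algebraMap K QB a₁ with hw
  have hwp : w ^ p = algebraMap K QB (algebraMap (𝓞 K) K u) := by
    rw [hw, div_pow, hα, hα3, map_mul, map_pow, mul_div_assoc, div_self (pow_ne_zero _ ha₁'),
      mul_one]
  have hwint : IsIntegral ℤ w := by
    refine IsIntegral.of_pow hp.out.pos ?_
    rw [hwp]
    exact (RingOfIntegers.isIntegral_coe (u : 𝓞 K)).map (algebraMap K QB).toIntAlgHom
  have hwn : ‖ι₀ w‖ ≤ 1 := norm_le_one_of_integral (hwint.map (ι₀ : QB →+* PadicAlgCl p).toIntAlgHom)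
  have hwD : ∀ τ : Au p, τ (φ ζ) = φ ζ → τ (ι₀ w) = ι₀ w := by
    intro τ hτ
    have h1 : τ (φ a₁) = φ a₁ := by
      have := hom_eq hζ ((τ : PadicAlgCl p →+* PadicAlgCl p).comp φ) φ hτ
      exact DFunLike.congr_fun this a₁
    have h2 : τ (ι₀ t) = ι₀ t := hD τ hτ
    have h3 : ι₀ w = ι₀ t / φ a₁ := by rw [hw, map_div₀]; rfl
    rw [h3, map_div₀, h1, h2]
  obtain ⟨n, hn⟩ := pow_near hz hwn hwD
  have hdvd : (p : 𝓞 K) ∣ (u : 𝓞 K) - n := by
    by_cases h0 : (u : 𝓞 K) - n = 0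
    · rw [h0]
      exact dvd_zero _
    · apply ell_dvd_of hζ
      have h0' : algebraMap (𝓞 K) K ((u : 𝓞 K) - n) ≠ 0 :=
        (map_ne_zero_iff _ (FaithfulSMul.algebraMap_injective (𝓞 K) K)).2 h0
      obtain ⟨m, hm⟩ := exists_val (v := lam hζ) h0'
      have h1 := hφ.val (lam_unif hζ) hm
      have h2 : φ (algebraMap (𝓞 K) K ((u : 𝓞 K) - n)) = (ι₀ w) ^ p - n := by
        rw [← map_pow, hwp, map_sub, map_sub, map_intCast, map_intCast]
        rfl
      rw [h2, map_sub, map_one] at h1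
      rw [h1, ← norm_pi hz, ← zpow_natCast] at hn
      have h3 : ((p - 1 : ℕ) : ℤ) ≤ m := by
        by_contra hlt
        push Not at hlt
        have := zpow_lt_zpow_right_of_lt_one₀ (pi_pos hz) (pi_lt hz) hlt
        exact absurd hn (not_le.2 this)
      rw [HeightOneSpectrum.valuation_of_algebraMap] at hm
      rw [hm, exp_le_exp]
      omega
  obtain ⟨η, hη⟩ := kummer_lemma hζ hp2 hreg u n hdvd
  -- the end
  have hη0 : algebraMap K QB (algebraMap (𝓞 K) K η) ≠ 0 := by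
    refine (map_ne_zero _).2 ((map_ne_zero_iff _ (FaithfulSMul.algebraMap_injective (𝓞 K) K)).2 ?_)
    exact η.ne_zero
  have hroot : (w / algebraMap K QB (algebraMap (𝓞 K) K η)) ^ p = 1 := by
    rw [div_pow, hwp, hη, Units.val_pow_eq_pow_val, map_pow, map_pow,
      div_self (pow_ne_zero _ hη0)]
  have hζQ : IsPrimitiveRoot (algebraMap K QB ζ) p := hζ.map_of_injective (algebraMap K QB).injective
  obtain ⟨i, -, hi⟩ := hζQ.eq_pow_of_pow_eq_one hroot
  refine ⟨a₁ * algebraMap (𝓞 K) K η * ζ ^ i, ?_⟩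
  have e1 : t = w * algebraMap K QB a₁ := by rw [hw, div_mul_cancel₀ _ ha₁']
  have e2 : w = algebraMap K QB ζ ^ i * algebraMap K QB (algebraMap (𝓞 K) K η) := by
    rw [hi, div_mul_cancel₀ _ hη0]
  rw [e1, e2, map_mul, map_mul, map_pow]
  ring

end Pool.Agent.J6H32.RP
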