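import Pool.Agent.R384.Z.Gen

/-!
# Pro-`p` groups and matrix representations
-/

set_option autoImplicit false
set_option linter.unusedSectionVars false

namespace Pool.Agent.J6H32.RP

open Pool.Agent.Z384 IsLocalRing Matrix

variable {p : ℕ} [hp : Fact p.Prime]

/-- a proper subgroup of a finite `p`-group is in the kernel of a nontrivial character -/
lemma exists_char {P : Type*} [Group P] [Finite P] {a : ℕ} (hP : Nat.card P = p ^ a)
    {Q : Subgroup P} (hQ : Q ≠ ⊤) :
    ∃ χ : P → ZMod p, (∀ x y, χ (x * y) = χ x + χ y) ∧ (∀ x ∈ Q, χ x = 0) ∧ ∃ x, χ x ≠ 0 := by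
  obtain ⟨m, hm, hQm⟩ := (Nat.dvd_prime_pow hp.out).1 (hP ▸ Subgroup.card_subgroup_dvd_card Q)
  have hma : m ≠ a := by
    rintro rfl
    exact hQ (Subgroup.eq_top_of_card_eq Q (by rw [hQm, hP]))
  obtain ⟨b, rfl⟩ : ∃ b, a = b + 1 := ⟨a - 1, by omega⟩
  obtain ⟨K, hK, hQK⟩ := Sylow.exists_subgroup_card_pow_prime_le (G := P) p (n := m) (m := b)
    (by rw [hP]; exact pow_dvd_pow _ (by omega)) Q hQm (by omega)
  have hidx : K.index = p := by
    have h1 := K.card_mul_index
    rw [hK, hP, pow_succ] at h1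
    exact Nat.eq_of_mul_eq_mul_left (pow_pos hp.out.pos b) h1
  have hn : K.Normal := by
    apply Subgroup.normal_of_index_eq_minFac_card
    rw [hidx, hP, Nat.Prime.pow_minFac hp.out (by omega)]
  have hcard : Nat.card (P ⧸ K) = p := hidx
  have hcard2 : Nat.card (Multiplicative (ZMod p)) = p := Nat.card_zmod p
  let e : P ⧸ K ≃* Multiplicative (ZMod p) := mulEquivOfPrimeCardEq hcard hcard2
  refine ⟨fun x => Multiplicative.toAdd (e (QuotientGroup.mk' K x)), fun x y => ?_, fun x hx => ?_, ?_⟩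
  · show Multiplicative.toAdd (e (QuotientGroup.mk' K (x * y))) = _
    rw [map_mul, map_mul]
    rfl
  · have h1 : QuotientGroup.mk' K x = 1 := (QuotientGroup.eq_one_iff x).2 (hQK hx)
    show Multiplicative.toAdd (e (QuotientGroup.mk' K x)) = 0
    rw [h1, map_one]
    rfl
  · have : Nontrivial (P ⧸ K) := by
      rw [← Finite.one_lt_card_iff_nontrivial, hcard]
      exact hp.out.one_lt
    obtain ⟨y, hy⟩ := exists_ne (1 : P ⧸ K)
    obtain ⟨x, rfl⟩ := QuotientGroup.mk'_surjective K y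
    refine ⟨x, fun h => hy ?_⟩
    have h1 : e (QuotientGroup.mk' K x) = 1 := h
    exact (map_eq_one_iff e e.injective).1 h1

section sur

variable {G : Type*} [Group G] [TopologicalSpace G] [IsTopologicalGroup G]

/-- Burnside's theorem -/
theorem surjP (D : Subgroup G) {U : Subgroup G} (hUn : U.Normal) {a : ℕ} (hUi : U.index = p ^ a)
    (hUo : IsOpen (U : Set G))
    (hkey : ∀ h : G → ZMod p, IsLocallyConstant h → (∀ σ τ, h (σ * τ) = h σ + h τ) →
      (∀ σ ∈ U, h σ = 0) → (∀ σ ∈ D, h σ = 0) → ∀ σ, h σ = 0) (g : G) :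
    ∃ δ ∈ D, δ⁻¹ * g ∈ U := by
  classical
  have hUf : U.FiniteIndex := ⟨by rw [hUi]; exact pow_ne_zero _ hp.out.ne_zero⟩
  have hfin : Finite (G ⧸ U) := inferInstance
  set Q : Subgroup (G ⧸ U) := D.map (QuotientGroup.mk' U) with hQ
  by_cases h : Q = ⊤
  · have h1 : (QuotientGroup.mk' U g) ∈ Q := by rw [h]; trivial
    obtain ⟨δ, hδ, hδg⟩ := h1
    exact ⟨δ, hδ, QuotientGroup.eq.1 hδg⟩
  · exfalso
    obtain ⟨χ, h1, h2, x, hx⟩ := exists_char (p := p) (P := G ⧸ U) (a := a) (by
      rw [← hUi]; rfl) h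
    obtain ⟨σ, rfl⟩ := QuotientGroup.mk'_surjective U x
    refine hx (hkey (fun σ => χ (QuotientGroup.mk' U σ)) ?_ ?_ ?_ ?_ σ)
    · refine IsLocallyConstant.iff_exists_open _ |>.2 fun σ => ?_
      refine ⟨(fun τ => σ⁻¹ * τ) ⁻¹' (U : Set G), hUo.preimage (continuous_const.mul continuous_id),
        by simp, fun τ hτ => ?_⟩
      have e : QuotientGroup.mk' U τ = QuotientGroup.mk' U σ := (QuotientGroup.eq.2 hτ).symm
      show χ (QuotientGroup.mk' U τ) = _
      rw [e]
    · intro σ τ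
      show χ (QuotientGroup.mk' U (σ * τ)) = _
      rw [map_mul, h1]
    · intro σ hσ
      have e : QuotientGroup.mk' U σ = 1 := (QuotientGroup.eq_one_iff σ).2 hσ
      show χ (QuotientGroup.mk' U σ) = 0
      rw [e]
      exact h2 1 (one_mem _)
    · intro σ hσ
      exact h2 _ ⟨σ, hσ, rfl⟩

end sur

section mat

variable {A : Type*} [CommRing A] [IsLocalRing A] {n : ℕ}

lemma liftP2 (h2 : (p : A) ∈ maximalIdeal A) {X : Matrix (Fin n) (Fin n) A}
    (hX : InI (maximalIdeal A) (X - 1)) (m : ℕ) : InI (maximalIdeal A ^ (m + 1)) (X ^ p ^ m - 1) := by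
  induction m with
  | zero => simpa using hX
  | succ m ih =>
    set Y : Matrix (Fin n) (Fin n) A := X ^ p ^ m - 1 with hY
    have hXY : X ^ p ^ m = 1 + Y := by rw [hY]; abel
    obtain ⟨r, hr⟩ := (Commute.one_left Y).exists_add_pow_prime_eq hp.out
    have e : X ^ p ^ (m + 1) - 1 = (p : A) • (Y * r) + Y * Y * Y ^ (p - 2) := by
      have h3 : Y ^ p = Y * Y * Y ^ (p - 2) := by
        have h4 : p = 1 + 1 + (p - 2) := by have := hp.out.two_le; omega
        conv_lhs => rw [h4, pow_add, pow_add, pow_one]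
      rw [pow_succ p m, pow_mul, hXY, hr, h3, one_pow, mul_one]
      have h5 : ((p : ℕ) : Matrix (Fin n) (Fin n) A) * Y * r = (p : A) • (Y * r) := by
        rw [mul_assoc, ← nsmul_eq_mul, Nat.cast_smul_eq_nsmul]
      rw [h5]
      abel
    rw [e]
    refine InI.add (fun i j => ?_) (fun i j => ?_)
    · show (p : A) * ((Y * r) i j) ∈ _
      rw [mul_comm (p : A), pow_succ]
      refine Ideal.mul_mem_mul ?_ h2
      rw [Matrix.mul_apply]
      exact Ideal.sum_mem _ fun k _ => Ideal.mul_mem_right _ _ (ih i k)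
    · have h6 : InI (maximalIdeal A ^ (m + 1 + 1)) (Y * Y) :=
        (ih.mul ih).mono (by rw [← pow_add]; exact Ideal.pow_le_pow_right (by omega))
      rw [Matrix.mul_apply]
      exact Ideal.sum_mem _ fun k _ => Ideal.mul_mem_right _ _ (h6 i k)

lemma liftP1 (h2 : (p : A) ∈ maximalIdeal A) {X : Matrix (Fin n) (Fin n) A} {N : ℕ}
    (hX : InI (maximalIdeal A) ((X - 1) ^ N)) : InI (maximalIdeal A) (X ^ p ^ N - 1) := by
  set f : Matrix (Fin n) (Fin n) A →+* Matrix (Fin n) (Fin n) (ResidueField A) :=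
    (residue A).mapMatrix with hf
  have hz : ∀ Z : Matrix (Fin n) (Fin n) A, InI (maximalIdeal A) Z ↔ f Z = 0 := by
    intro Z
    constructor
    · intro h
      ext i j
      exact (residue_eq_zero_iff _).2 (h i j)
    · intro h i j
      exact (residue_eq_zero_iff _).1 (congrFun (congrFun h i) j)
  have hc : CharP (ResidueField A) p := by
    rw [CharP.charP_iff_prime_eq_zero hp.out]
    have : residue A (p : A) = 0 := (residue_eq_zero_iff _).2 h2
    rwa [map_natCast] at this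
  rw [hz] at hX ⊢
  have hc2 : CharP (Matrix (Fin n) (Fin n) (ResidueField A)) p ∨ n = 0 := by
    rcases Nat.eq_zero_or_pos n with h | h
    · exact Or.inr h
    · have : Nonempty (Fin n) := ⟨⟨0, h⟩⟩
      exact Or.inl inferInstance
  rcases hc2 with hc2 | hn
  · rw [map_sub, map_pow, map_one] at *
    have h3 : (f X - 1) ^ p ^ N = f X ^ p ^ N - 1 := by
      have := sub_pow_char_pow_of_commute p N (Commute.one_right (f X))
      rwa [one_pow] at this
    rw [← h3]
    obtain ⟨k, hk⟩ : ∃ k, p ^ N = N + k := ⟨p ^ N - N, by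
      have := Nat.lt_pow_self (n := N) hp.out.one_lt; omega⟩
    rw [hk, pow_add]
    have h4 : (f X - 1) ^ N = 0 := by
      have := hX
      rwa [map_sub, map_one] at this
    rw [h4, zero_mul]
  · subst hn
    exact Subsingleton.elim _ _

end mat

section rep

variable {A : Type*} [CommRing A] [IsLocalRing A] [IsNoetherianRing A] {n : ℕ}
variable {G : Type*} [Group G]

lemma congP_index (h2 : (p : A) ∈ maximalIdeal A) (hfin : Finite (ResidueField A))
    (ρ : G →* GL (Fin n) A)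
    (hres : ∀ σ, ∃ N : ℕ, InI (maximalIdeal A) (((ρ σ : Matrix (Fin n) (Fin n) A) - 1) ^ N)) (m : ℕ) :
    ∃ b : ℕ, (cong ρ m).index = p ^ b := by
  have hf1 : Finite (A ⧸ maximalIdeal A) := hfin
  have hf2 : Finite (A ⧸ maximalIdeal A ^ m) :=
    Ideal.finite_quotient_pow (IsNoetherian.noetherian (maximalIdeal A)) m
  have hf3 : Finite (Matrix (Fin n) (Fin n) (A ⧸ maximalIdeal A ^ m)) := inferInstance
  have hf4 : Finite (GL (Fin n) (A ⧸ maximalIdeal A ^ m)) := Finite.of_injective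
    (fun u : GL (Fin n) (A ⧸ maximalIdeal A ^ m) =>
      (u : Matrix (Fin n) (Fin n) (A ⧸ maximalIdeal A ^ m))) Units.val_injective
  have hf5 : (cong ρ m).FiniteIndex := by
    unfold cong
    infer_instance
  have hn := cong_normal ρ m
  have hpg : IsPGroup p (G ⧸ cong ρ m) := by
    intro x
    obtain ⟨g, rfl⟩ := QuotientGroup.mk_surjective x
    obtain ⟨N, hN⟩ := hres g
    refine ⟨N + m, ?_⟩
    rw [← QuotientGroup.mk_pow]
    refine (QuotientGroup.eq_one_iff _).2 (mem_cong.2 ?_)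
    have h3 := liftP2 h2 (liftP1 h2 hN) m
    have e : (ρ (g ^ p ^ (N + m)) : Matrix (Fin n) (Fin n) A) =
        ((ρ g : Matrix (Fin n) (Fin n) A) ^ p ^ N) ^ p ^ m := by
      rw [map_pow, Units.val_pow_eq_pow_val, ← pow_mul, ← pow_add]
    rw [e]
    exact h3.mono (Ideal.pow_le_pow_right (by omega))
  obtain ⟨b, hb⟩ := IsPGroup.iff_card.1 hpg
  exact ⟨b, hb⟩

end rep

end Pool.Agent.J6H32.RP
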