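import Pool.Agent.J6H32.RP.Core3
import Pool.Agent.J6H32.RP.Grp

/-!
# Density of the decomposition group at a regular prime
-/

set_option autoImplicit false
set_option linter.unusedSectionVars false

namespace Pool.Agent.J6H32.RP

open NumberField
open Pool.Agent.Z384 Pool.Agent.J6H32.SQ
open Pool.Agent.Y715.Red Pool.Agent.Y715.Nr Pool.Agent.W237.RK
open Pool.Agent.Y715.Gi (QB KK GK i₀_mem gk_fix)
open Pool.Agent.Y715.Df (Cmp exists_cmp gh)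
open IsLocalRing Matrix

variable {p : ℕ} [hp : Fact p.Prime]

lemma classNumber_congr {K L : Type} [Field K] [NumberField K] [Field L] [NumberField L] (e : K ≃+* L) :
    classNumber K = classNumber L := by
  unfold classNumber
  exact Fintype.card_congr (ClassGroup.mulEquiv (RingOfIntegers.mapRingEquiv e)).toEquiv

section key

variable {z : QB} (hz : IsPrimitiveRoot z p)

include hz in
/-- **Characters of order `p` of `ℚ(ζ_p)`, unramified outside `p` and `q` and trivial at `p`.** -/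
theorem keyP (hp2 : 2 < p) (hreg : (classNumber (CyclotomicField p ℚ)).Coprime p)
    {q : ℕ} (hq : q.Prime) (hord : orderOf ((q : ℕ) : ZMod (p ^ 2)) = p * (p - 1))
    (h : GK z → ZMod p) (hlc : IsLocallyConstant h) (hm : ∀ σ τ, h (σ * τ) = h σ + h τ)
    (hur : ∀ (l : ℕ) [Fact l.Prime] (ι : QB →ₐ[ℚ] PadicAlgCl l), l ≠ p → l ≠ q →
      ∀ σ ∈ (II ι : Set (GK z)), h σ = 0)
    (ι₀ : QB →ₐ[ℚ] PadicAlgCl p) (hD : ∀ σ ∈ (DD ι₀ : Set (GK z)), h σ = 0) : ∀ σ, h σ = 0 := by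
  have hNZ : NeZero p := ⟨hp.out.ne_zero⟩
  have hcyc : IsCyclotomicExtension {p} ℚ (KK z) :=
    IsPrimitiveRoot.intermediateField_adjoin_isCyclotomicExtension ℚ hz
  have hnf : NumberField (KK z) := IsCyclotomicExtension.numberField {p} ℚ (KK z)
  have hreg' : (classNumber (KK z)).Coprime p := by
    have hne : NeZero ((p : ℕ) : ℚ) := ⟨by exact_mod_cast hp.out.ne_zero⟩
    have hcyc' : IsCyclotomicExtension {p} ℚ (CyclotomicField p ℚ) :=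
      CyclotomicField.isCyclotomicExtension p ℚ
    rw [classNumber_congr (IsCyclotomicExtension.algEquiv {p} ℚ (KK z)
      (CyclotomicField p ℚ)).toRingEquiv]
    exact hreg
  let ζ : KK z := ⟨z, i₀_mem⟩
  have hζz : algebraMap (KK z) QB ζ = z := rfl
  have hζ : IsPrimitiveRoot ζ p := by
    have : IsPrimitiveRoot (algebraMap (KK z) QB ζ) p := hz
    exact IsPrimitiveRoot.of_map_of_injective this (algebraMap (KK z) QB).injective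
  obtain ⟨t, ht0, ht⟩ := exists_root (K := KK z) (Ω := QB) hz (fun σ => gk_fix σ) h hm hlc
  obtain ⟨α, hα⟩ : ∃ α : KK z, algebraMap (KK z) QB α = t ^ p := by
    have := (InfiniteGalois.mem_range_algebraMap_iff_fixed (k := KK z) (K := QB) (t ^ p)).2
      (fun σ => by
        have h1 : (zp z (h σ)) ^ p = 1 := by
          rw [zp, ← pow_mul, mul_comm (h σ).val, pow_mul, hz.pow_eq_one, one_pow]
        rw [map_pow, ht, mul_pow, h1, one_mul])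
    exact this
  obtain ⟨c, hc⟩ := core hζ hp2 hreg' hq hord ht0 hα.symm (fun l _ ι hlp hlq => by
      refine norm_ne ((map_ne_zero ι).2 ht0) (mem_kur fun τ hτ => ?_)
      have h1 : ι z ∈ kur l := by
        apply IntermediateField.subset_adjoin
        refine ⟨p, fun hdvd => hlp ((Nat.prime_dvd_prime_iff_eq Fact.out hp.out).1 hdvd), ?_⟩
        rw [← map_pow, hz.pow_eq_one, map_one]
      obtain ⟨σ, hσ⟩ := exists_cmp ι τ (hτ _ h1)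
      have h2 : h σ = 0 := hur l ι hlp hlq σ ⟨τ, hσ, inert_of_kur hτ⟩
      have h3 : σ t = t := by rw [ht, h2, zp_zero, one_mul]
      rw [hσ, h3]) ι₀ (fun τ hτ => by
      obtain ⟨σ, hσ⟩ : ∃ σ : GK z, Cmp ι₀ τ σ := exists_cmp ι₀ τ hτ
      have h2 : h σ = 0 := hD σ ⟨τ, hσ⟩
      have h3 : σ t = t := by rw [ht, h2, zp_zero, one_mul]
      rw [hσ, h3])
  intro σ
  have h1 : σ t = t := by rw [hc]; exact σ.commutes c
  have h2 := ht σ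
  rw [h1] at h2
  have h3 : zp z (h σ) = 1 := (mul_eq_right₀ ht0).1 h2.symm
  rw [zp, hz.pow_eq_one_iff_dvd] at h3
  have h4 := Nat.eq_zero_of_dvd_of_lt h3 (ZMod.val_lt _)
  exact (ZMod.val_eq_zero _).1 h4

end key

/-- the decomposition group in the absolute Galois group of `ℚ` -/
def DP (ι : QB →ₐ[ℚ] PadicAlgCl p) : Subgroup (QB ≃ₐ[ℚ] QB) where
  carrier := {σ | ∃ τ : Au p, ∀ x, τ (ι x) = ι (σ x)}
  mul_mem' := by
    rintro σ σ' ⟨τ, h⟩ ⟨τ', h'⟩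
    refine ⟨τ * τ', fun x => ?_⟩
    rw [AlgEquiv.mul_apply, AlgEquiv.mul_apply, h', h]
  one_mem' := ⟨1, fun _ => rfl⟩
  inv_mem' := by
    rintro σ ⟨τ, h⟩
    refine ⟨τ⁻¹, fun x => ?_⟩
    have h5 := h (σ⁻¹ x)
    rw [← AlgEquiv.mul_apply σ σ⁻¹, mul_inv_cancel, AlgEquiv.one_apply] at h5
    rw [← h5, ← AlgEquiv.mul_apply τ⁻¹ τ, inv_mul_cancel, AlgEquiv.one_apply]

lemma exists_cmpP (ι : QB →ₐ[ℚ] PadicAlgCl p) (τ : Au p) :
    ∃ σ : QB ≃ₐ[ℚ] QB, ∀ x, τ (ι x) = ι (σ x) := exists_cmpQ ι τ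

section rep

variable {z : QB} (hz : IsPrimitiveRoot z p)
variable {A : Type*} [CommRing A] [IsLocalRing A] [IsNoetherianRing A] [TopologicalSpace A] {n : ℕ}

include hz in
/-- **Density over `ℚ`.** -/
theorem densP (hp2 : 2 < p) (hreg : (classNumber (CyclotomicField p ℚ)).Coprime p)
    {q : ℕ} (hq : q.Prime) (hord : orderOf ((q : ℕ) : ZMod (p ^ 2)) = p * (p - 1))
    (hA : IsAdic (maximalIdeal A)) (hfin : Finite (ResidueField A)) (h2 : (p : A) ∈ maximalIdeal A)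
    {ρ : (QB ≃ₐ[ℚ] QB) →* GL (Fin n) A}
    (hρ : ∀ i j, Continuous fun σ => (ρ σ : Matrix (Fin n) (Fin n) A) i j)
    (hres : ∀ σ : QB ≃ₐ[ℚ] QB, σ z = z → ∃ M : ℕ,
      InI (maximalIdeal A) (((ρ σ : Matrix (Fin n) (Fin n) A) - 1) ^ M))
    (hu : ∀ (l : ℕ) [Fact l.Prime] (ι : QB →ₐ[ℚ] PadicAlgCl l), l ≠ p → l ≠ q →
      ∀ (σ : QB ≃ₐ[ℚ] QB) (τ : Au l), (∀ x, τ (ι x) = ι (σ x)) → Inert τ → ρ σ = 1)
    (ι₀ : QB →ₐ[ℚ] PadicAlgCl p) (m : ℕ) (g : QB ≃ₐ[ℚ] QB) :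
    ∃ δ ∈ DP ι₀, δ⁻¹ * g ∈ cong ρ m := by
  -- reduction to the stabilizer of `z`
  have hgz : IsPrimitiveRoot (g z) p := hz.map_of_injective (f := (g : QB →+* QB)) g.injective
  obtain ⟨τ, hτ⟩ := surj (hz.map_of_injective (f := (ι₀ : QB →+* PadicAlgCl p)) ι₀.injective)
    (hgz.map_of_injective (f := (ι₀ : QB →+* PadicAlgCl p)) ι₀.injective)
  obtain ⟨δ₀, hδ₀⟩ := exists_cmpP ι₀ τ
  have hδz : δ₀ z = g z := by
    apply ι₀.injective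
    show ι₀ (δ₀ z) = ι₀ (g z)
    rw [← hδ₀ z]
    exact hτ
  have hT : δ₀⁻¹ * g ∈ TT z := by
    show δ₀⁻¹ (g z) = z
    rw [← hδz, ← AlgEquiv.mul_apply, inv_mul_cancel, AlgEquiv.one_apply]
  obtain ⟨g', hg'⟩ := exists_rs hT
  let ρ' : GK z →* GL (Fin n) A := ρ.comp (rs z)
  have hρ' : ∀ i j, Continuous fun σ => (ρ' σ : Matrix (Fin n) (Fin n) A) i j :=
    fun i j => (hρ i j).comp (rs_cont z)
  obtain ⟨b, hb⟩ := congP_index h2 hfin ρ' (fun σ => hres _ (gk_fix σ)) m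
  obtain ⟨δ, hδ, hδg⟩ := surjP (p := p) (DDs ι₀) (cong_normal ρ' m) hb
    (cong_open hA (ρ := ρ') hρ' m) (fun h hc hm hU hD => by
      refine keyP hz hp2 hreg hq hord h hc hm (fun l _ ι hlp hlq σ hσ => ?_) ι₀ hD
      obtain ⟨τ, h1, h2⟩ := hσ
      apply hU
      show GeneralLinearGroup.map (n := Fin n) (Ideal.Quotient.mk (maximalIdeal A ^ m)) (ρ' σ) = 1
      have h3 : ρ' σ = 1 := hu l ι hlp hlq _ τ h1 h2
      rw [h3, map_one]) g'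
  refine ⟨δ₀ * rs z δ, mul_mem ⟨τ, hδ₀⟩ ?_, ?_⟩
  · obtain ⟨τ', hτ'⟩ := hδ
    exact ⟨τ', hτ'⟩
  · have e : (δ₀ * rs z δ)⁻¹ * g = rs z (δ⁻¹ * g') := by
      rw [map_mul, map_inv, hg']
      group
    rw [e]
    exact hδg

variable {F : Type*} [Field F] [Algebra A F] [IsFractionRing A F]

include hz in
/-- **Stable lines.** -/
theorem lineP (hp2 : 2 < p) (hreg : (classNumber (CyclotomicField p ℚ)).Coprime p)
    {q : ℕ} (hq : q.Prime) (hord : orderOf ((q : ℕ) : ZMod (p ^ 2)) = p * (p - 1))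
    (hA : IsAdic (maximalIdeal A)) (hfin : Finite (ResidueField A)) (h2 : (p : A) ∈ maximalIdeal A)
    {ρ : (QB ≃ₐ[ℚ] QB) →* GL (Fin n) A}
    (hρ : ∀ i j, Continuous fun σ => (ρ σ : Matrix (Fin n) (Fin n) A) i j)
    (hres : ∀ σ : QB ≃ₐ[ℚ] QB, σ z = z → ∃ M : ℕ,
      InI (maximalIdeal A) (((ρ σ : Matrix (Fin n) (Fin n) A) - 1) ^ M))
    (hu : ∀ (l : ℕ) [Fact l.Prime] (ι : QB →ₐ[ℚ] PadicAlgCl l), l ≠ p → l ≠ q →
      ∀ (σ : QB ≃ₐ[ℚ] QB) (τ : Au l), (∀ x, τ (ι x) = ι (σ x)) → Inert τ → ρ σ = 1)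
    (ι₀ : QB →ₐ[ℚ] PadicAlgCl p) {v : Fin n → F} (hv : v ≠ 0)
    (hD : ∀ δ ∈ DP ι₀, ∃ c : F, act F ρ δ v = c • v) (g : QB ≃ₐ[ℚ] QB) :
    ∃ c : F, act F ρ g v = c • v := by
  have hD' : DP ι₀ ≤ stb ρ (Submodule.span F {v}) := by
    intro δ hδ
    obtain ⟨c, hc⟩ := hD δ hδ
    apply mem_stb_line ρ hv
    rw [hc]
    exact Submodule.smul_mem _ _ (Submodule.mem_span_singleton_self v)
  have h1 : g ∈ stb ρ (Submodule.span F {v}) :=
    stb_of_lim ρ _ hD' fun m => densP hz hp2 hreg hq hord hA hfin h2 hρ hres hu ι₀ m g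
  obtain ⟨c, hc⟩ := Submodule.mem_span_singleton.1
    ((h1 v).1 (Submodule.mem_span_singleton_self v))
  exact ⟨c, hc.symm⟩

include hz in
/-- **Potentially stable lines.** -/
theorem plineP (hp2 : 2 < p) (hreg : (classNumber (CyclotomicField p ℚ)).Coprime p)
    {q : ℕ} (hq : q.Prime) (hord : orderOf ((q : ℕ) : ZMod (p ^ 2)) = p * (p - 1))
    (hA : IsAdic (maximalIdeal A)) (hfin : Finite (ResidueField A)) (h2 : (p : A) ∈ maximalIdeal A)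
    {ρ : (QB ≃ₐ[ℚ] QB) →* GL (Fin 2) A}
    (hρ : ∀ i j, Continuous fun σ => (ρ σ : Matrix (Fin 2) (Fin 2) A) i j)
    (hres : ∀ σ : QB ≃ₐ[ℚ] QB, σ z = z → ∃ M : ℕ,
      InI (maximalIdeal A) (((ρ σ : Matrix (Fin 2) (Fin 2) A) - 1) ^ M))
    (hu : ∀ (l : ℕ) [Fact l.Prime] (ι : QB →ₐ[ℚ] PadicAlgCl l), l ≠ p → l ≠ q →
      ∀ (σ : QB ≃ₐ[ℚ] QB) (τ : Au l), (∀ x, τ (ι x) = ι (σ x)) → Inert τ → ρ σ = 1)
    (ι₀ : QB →ₐ[ℚ] PadicAlgCl p)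
    {D' : Subgroup (QB ≃ₐ[ℚ] QB)} {R : Set (QB ≃ₐ[ℚ] QB)} (hRf : R.Finite)
    (hR : ∀ δ ∈ DP ι₀, ∃ r ∈ R, r⁻¹ * δ ∈ D')
    (hirr : Irr F ρ)
    {v : Fin 2 → F} (hv : v ≠ 0) (hD' : ∀ δ ∈ D', ∃ c : F, act F ρ δ v = c • v) :
    (∃ S : Subgroup (QB ≃ₐ[ℚ] QB), S.Normal ∧ S.FiniteIndex ∧ IsOpen (S : Set (QB ≃ₐ[ℚ] QB)) ∧
      (∀ σ ∈ S, ∃ c : F, ∀ w, act F ρ σ w = c • w)) ∨
    ∃ T : Subgroup (QB ≃ₐ[ℚ] QB), T.index = 2 ∧ IsOpen (T : Set (QB ≃ₐ[ℚ] QB)) ∧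
      ∀ σ ∈ T, ∃ c : F, act F ρ σ v = c • v :=
  dih hA hρ (D := DP ι₀) (densP hz hp2 hreg hq hord hA hfin h2 hρ hres hu ι₀) hRf hR hirr hv hD'

end rep

end Pool.Agent.J6H32.RP
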