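import Mathlib

/-!
# Kummer theory for characters of order `p`
-/

set_option autoImplicit false
set_option linter.unusedSectionVars false

namespace Pool.Agent.J6H32.RP

variable {p : ℕ} [hp : Fact p.Prime]

section zz

variable {Ω : Type*} [Field Ω] {z : Ω} (hz : z ^ p = 1)

/-- powers with exponents modulo `p` -/
def zp (z : Ω) (a : ZMod p) : Ω := z ^ a.val

include hz in
lemma zp_nat (n : ℕ) : zp (p := p) z n = z ^ n := by
  rw [zp, ZMod.val_natCast]
  conv_rhs => rw [← Nat.div_add_mod n p, pow_add, pow_mul, hz, one_pow, one_mul]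

include hz in
lemma zp_add (a b : ZMod p) : zp z (a + b) = zp z a * zp z b := by
  have e : a + b = ((a.val + b.val : ℕ) : ZMod p) := by
    push_cast
    rw [ZMod.natCast_zmod_val, ZMod.natCast_zmod_val]
  rw [e, zp_nat hz, pow_add]
  rfl

lemma zp_zero : zp (p := p) z 0 = 1 := by
  rw [zp, ZMod.val_zero, pow_zero]

end zz

section kummer

variable {K Ω : Type*} [Field K] [Field Ω] [Algebra K Ω] [IsGalois K Ω]

/-- **Kummer theory.** -/
theorem exists_root {z : Ω} (hz : IsPrimitiveRoot z p) (hfix : ∀ σ : Ω ≃ₐ[K] Ω, σ z = z)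
    (h : (Ω ≃ₐ[K] Ω) → ZMod p) (hm : ∀ σ τ, h (σ * τ) = h σ + h τ) (hc : IsLocallyConstant h) :
    ∃ t : Ω, t ≠ 0 ∧ ∀ σ, σ t = zp z (h σ) * t := by
  classical
  have hz1 := hz.pow_eq_one
  have h1 : h 1 = 0 := by
    have := hm 1 1
    rw [mul_one] at this
    exact left_eq_add.1 this
  by_cases htriv : ∀ σ, h σ = 0
  · exact ⟨1, one_ne_zero, fun σ => by rw [htriv σ, zp_zero, map_one, mul_one]⟩
  push Not at htriv
  obtain ⟨τ₀, hτ₀⟩ := htriv
  have hpow : ∀ (σ : Ω ≃ₐ[K] Ω) (n : ℕ), h (σ ^ n) = n * h σ := by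
    intro σ n
    induction n with
    | zero => rw [pow_zero, h1, Nat.cast_zero, zero_mul]
    | succ n ih => rw [pow_succ, hm, ih]; push_cast; ring
  obtain ⟨τ, hτ⟩ : ∃ τ, h τ = 1 := by
    refine ⟨τ₀ ^ (h τ₀)⁻¹.val, ?_⟩
    rw [hpow, ZMod.natCast_zmod_val, inv_mul_cancel₀ hτ₀]
  have hinv : ∀ σ, h σ⁻¹ = -h σ := by
    intro σ
    have := hm σ⁻¹ σ
    rw [inv_mul_cancel, h1] at this
    exact (neg_eq_of_add_eq_zero_left this.symm).symm
  let H : Subgroup (Ω ≃ₐ[K] Ω) :=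
    { carrier := {σ | h σ = 0}
      mul_mem' := by
        intro a b ha hb
        show h (a * b) = 0
        rw [hm, show h a = 0 from ha, show h b = 0 from hb, add_zero]
      one_mem' := h1
      inv_mem' := by
        intro a ha
        show h a⁻¹ = 0
        rw [hinv, show h a = 0 from ha, neg_zero] }
  have hHo : IsOpen (H : Set (Ω ≃ₐ[K] Ω)) := hc.isOpen_fiber 0
  let Hc : ClosedSubgroup (Ω ≃ₐ[K] Ω) := ⟨H, H.isClosed_of_isOpen hHo⟩
  have hfx := InfiniteGalois.fixingSubgroup_fixedField Hc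
  let E : IntermediateField K Ω := IntermediateField.fixedField (Hc : Subgroup (Ω ≃ₐ[K] Ω))
  have hE : ∀ σ σ' : Ω ≃ₐ[K] Ω, h σ = h σ' → ∀ x : E, σ x = σ' x := by
    intro σ σ' hσ x
    have h3 : h (σ'⁻¹ * σ) = 0 := by rw [hm, hinv, hσ, neg_add_cancel]
    have h4 : (σ'⁻¹ * σ) (x : Ω) = x := x.2 ⟨σ'⁻¹ * σ, h3⟩
    have h5 := congrArg σ' h4
    rw [← AlgEquiv.mul_apply, mul_inv_cancel_left] at h5
    exact h5
  -- the monoid homomorphisms
  let f : ZMod p → (E →* Ω) := fun a =>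
    { toFun := fun x => (τ ^ a.val) (x : Ω)
      map_one' := by rw [OneMemClass.coe_one, map_one]
      map_mul' := fun x y => by rw [MulMemClass.coe_mul, map_mul] }
  have hfa : ∀ (a : ZMod p) (x : E), f a x = (τ ^ a.val) (x : Ω) := fun _ _ => rfl
  have hga : ∀ (σ : Ω ≃ₐ[K] Ω) (x : E), σ x = f (h σ) x := by
    intro σ x
    rw [hfa]
    refine hE _ _ ?_ x
    rw [hpow, hτ, mul_one, ZMod.natCast_zmod_val]
  have hinj : Function.Injective f := by
    intro a b hab
    by_contra hne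
    have h3 : (τ ^ b.val)⁻¹ * τ ^ a.val ∈ IntermediateField.fixingSubgroup E := by
      rw [IntermediateField.mem_fixingSubgroup_iff]
      intro x hx
      have h4 := DFunLike.congr_fun hab ⟨x, hx⟩
      rw [hfa, hfa] at h4
      have h5 : (τ ^ a.val) x = (τ ^ b.val) x := h4
      rw [AlgEquiv.mul_apply, h5, ← AlgEquiv.mul_apply, inv_mul_cancel, AlgEquiv.one_apply]
    rw [hfx] at h3
    have h4 : h ((τ ^ b.val)⁻¹ * τ ^ a.val) = 0 := h3
    rw [hm, hinv, hpow, hpow, hτ, mul_one, mul_one, ZMod.natCast_zmod_val,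
      ZMod.natCast_zmod_val] at h4
    exact hne (neg_add_eq_zero.1 h4).symm
  have hli := (linearIndependent_monoidHom E Ω).comp f hinj
  rw [Fintype.linearIndependent_iff] at hli
  obtain ⟨x, hx⟩ : ∃ x : E, ∑ a : ZMod p, zp z (-a) * f a x ≠ 0 := by
    by_contra hcon
    push Not at hcon
    have h3 := hli (fun a => zp z (-a)) (by
      funext x
      rw [Finset.sum_apply, Pi.zero_apply, ← hcon x]
      refine Finset.sum_congr rfl fun a _ => ?_
      rfl) 0
    rw [neg_zero, zp_zero] at h3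
    exact one_ne_zero h3
  refine ⟨_, hx, fun σ => ?_⟩
  have hzfix : ∀ a : ZMod p, σ (zp z a) = zp z a := by
    intro a
    rw [zp, map_pow, hfix]
  have hs : ∀ a : ZMod p, σ (f a x) = f (h σ + a) x := by
    intro a
    rw [hfa, ← AlgEquiv.mul_apply, hga (σ * τ ^ a.val) x]
    congr 2
    rw [hm, hpow, hτ, mul_one, ZMod.natCast_zmod_val]
  rw [map_sum, Finset.mul_sum]
  refine Fintype.sum_equiv (Equiv.addLeft (h σ)) _ _ fun a => ?_
  rw [map_mul, hzfix, hs, Equiv.coe_addLeft, ← mul_assoc, ← zp_add hz1]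
  congr 2
  ring

end kummer

end Pool.Agent.J6H32.RP
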