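import Pool.Agent.J6H32.RP.Loc
import Pool.Agent.J6H32.RP.Kum
import Pool.Agent.Y158.KL.Hil7

/-!
# Valuations and embeddings
-/

set_option autoImplicit false
set_option linter.unusedSectionVars false

namespace Pool.Agent.J6H32.RP

open NumberField IsDedekindDomain WithZero

section val

variable {K : Type} [Field K] [NumberField K] {l : ℕ} [hl : Fact l.Prime] (φ : K →+* PadicAlgCl l)

lemma norm_le_one_of_integral {y : PadicAlgCl l} (h : IsIntegral ℤ y) : ‖y‖ ≤ 1 := by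
  have h1 : IsIntegral (Valued.v (R := PadicAlgCl l)).integer y := h.tower_top
  have h2 := (Valuation.integer.integers (Valued.v (R := PadicAlgCl l))).mem_of_integral h1
  have h3 : Valued.v y ≤ (1 : NNReal) := h2
  rw [PadicAlgCl.valuation_def] at h3
  exact_mod_cast h3

lemma int_le (x : 𝓞 K) : ‖φ (x : K)‖ ≤ 1 :=
  norm_le_one_of_integral (map_isIntegral_int φ (RingOfIntegers.isIntegral_coe x))

/-- `v` is the place given by the embedding `φ` -/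
def Ctr (v : HeightOneSpectrum (𝓞 K)) : Prop := ∀ x : 𝓞 K, x ∈ v.asIdeal ↔ ‖φ (x : K)‖ < 1

variable {φ} {v : HeightOneSpectrum (𝓞 K)}

lemma Ctr.unit (hc : Ctr φ v) {x : 𝓞 K} (hx : x ∉ v.asIdeal) : ‖φ (x : K)‖ = 1 := by
  rw [hc x] at hx
  exact le_antisymm (int_le φ x) (not_lt.mp hx)

lemma Ctr.val_one (hc : Ctr φ v) {y : K} (hy : v.valuation K y = 1) : ‖φ y‖ = 1 := by
  obtain ⟨n, d, h⟩ := HeightOneSpectrum.exists_primeCompl_mul_eq_of_integer v y hy.le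
  have hd : (d : 𝓞 K) ∉ v.asIdeal := d.2
  have hd1 := hc.unit hd
  have hdv : v.valuation K (algebraMap (𝓞 K) K (d : 𝓞 K)) = 1 :=
    (HeightOneSpectrum.valuation_eq_one_iff_notMem (K := K) v).2 hd
  have hn : n ∉ v.asIdeal := by
    rw [← HeightOneSpectrum.valuation_eq_one_iff_notMem (K := K) v, ← h, map_mul, hy, hdv, one_mul]
  have hn1 := hc.unit hn
  have h2 : ‖φ (y * algebraMap (𝓞 K) K (d : 𝓞 K))‖ = ‖φ (algebraMap (𝓞 K) K n)‖ := by rw [h]
  rw [map_mul, norm_mul] at h2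
  have h3 : ‖φ (algebraMap (𝓞 K) K (d : 𝓞 K))‖ = 1 := hd1
  have h4 : ‖φ (algebraMap (𝓞 K) K n)‖ = 1 := hn1
  rw [h3, h4, mul_one] at h2
  exact h2

lemma Ctr.val (hc : Ctr φ v) {ϖ x : K} (hϖ : v.valuation K ϖ = exp (-1 : ℤ)) {k : ℤ}
    (hx : v.valuation K x = exp (-k)) : ‖φ x‖ = ‖φ ϖ‖ ^ k := by
  have hϖ0 : ϖ ≠ 0 := by
    rintro rfl
    rw [map_zero] at hϖ
    exact exp_ne_zero hϖ.symm
  have hy : v.valuation K (x * (ϖ ^ k)⁻¹) = 1 := by
    rw [map_mul, map_inv₀, map_zpow₀, hx, hϖ, ← exp_zsmul, ← exp_neg, ← exp_add]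
    simp
  have h1 := hc.val_one hy
  have hφ : ‖φ ϖ‖ ≠ 0 := norm_ne_zero_iff.2 ((map_ne_zero φ).2 hϖ0)
  rw [map_mul, map_inv₀, map_zpow₀, norm_mul, norm_inv, norm_zpow] at h1
  have h2 : ‖φ ϖ‖ ^ k ≠ 0 := zpow_ne_zero _ hφ
  field_simp at h1
  exact h1

lemma Ctr.pos (hc : Ctr φ v) {ϖ : K} (hϖ : v.valuation K ϖ = exp (-1 : ℤ)) :
    0 < ‖φ ϖ‖ ∧ ‖φ ϖ‖ < 1 := by
  have hϖ0 : ϖ ≠ 0 := by
    rintro rfl
    rw [map_zero] at hϖ
    exact exp_ne_zero hϖ.symm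
  refine ⟨norm_pos_iff.2 ((map_ne_zero φ).2 hϖ0), ?_⟩
  obtain ⟨n, d, h⟩ := HeightOneSpectrum.exists_primeCompl_mul_eq_of_integer v ϖ (by
    rw [hϖ, ← exp_zero, exp_le_exp]; norm_num)
  have hd : (d : 𝓞 K) ∉ v.asIdeal := d.2
  have hdv : v.valuation K (algebraMap (𝓞 K) K (d : 𝓞 K)) = 1 :=
    (HeightOneSpectrum.valuation_eq_one_iff_notMem (K := K) v).2 hd
  have hn : n ∈ v.asIdeal := by
    refine (HeightOneSpectrum.valuation_lt_one_iff_mem (K := K) v n).1 ?_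
    have e : v.valuation K (algebraMap (𝓞 K) K n) < 1 := by
      rw [← h, map_mul, hϖ, hdv, mul_one, ← exp_zero, exp_lt_exp]
      norm_num
    exact e
  have h2 : ‖φ (ϖ * algebraMap (𝓞 K) K (d : 𝓞 K))‖ = ‖φ (algebraMap (𝓞 K) K n)‖ := by rw [h]
  rw [map_mul, norm_mul] at h2
  have h3 : ‖φ (algebraMap (𝓞 K) K (d : 𝓞 K))‖ = 1 := hc.unit hd
  rw [h3, mul_one] at h2
  rw [h2]
  exact (hc n).1 hn

/-- every valuation is a power of the uniformizer -/
lemma exists_val {x : K} (hx : x ≠ 0) : ∃ k : ℤ, v.valuation K x = exp (-k) := by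
  have hv0 : v.valuation K x ≠ 0 := (Valuation.ne_zero_iff _).mpr hx
  refine ⟨-log (v.valuation K x), ?_⟩
  rw [neg_neg, exp_log hv0]

end val

section center

variable {K : Type} [Field K] [NumberField K]

/-- a prime number in a prime ideal -/
lemma exists_prime (v : HeightOneSpectrum (𝓞 K)) : ∃ l : ℕ, l.Prime ∧ (l : 𝓞 K) ∈ v.asIdeal := by
  have h1 : ((Ideal.absNorm v.asIdeal : ℕ) : 𝓞 K) ∈ v.asIdeal := Ideal.absNorm_mem _
  have h2 : Ideal.absNorm v.asIdeal ≠ 0 := by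
    rw [Ne, Ideal.absNorm_eq_zero_iff]
    exact v.ne_bot
  have key : ∀ n : ℕ, n ≠ 0 → (n : 𝓞 K) ∈ v.asIdeal → ∃ l : ℕ, l.Prime ∧ (l : 𝓞 K) ∈ v.asIdeal := by
    intro n
    induction n using Nat.recOnMul with
    | zero => intro h; exact absurd rfl h
    | one =>
      intro _ h
      rw [Nat.cast_one] at h
      exact absurd ((Ideal.eq_top_iff_one _).2 h) v.isPrime.ne_top
    | prime q hq => intro _ h; exact ⟨q, hq, h⟩
    | mul a b iha ihb =>
      intro h0 h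
      rw [Nat.cast_mul] at h
      rcases v.isPrime.mem_or_mem h with h | h
      · exact iha (left_ne_zero_of_mul h0) h
      · exact ihb (right_ne_zero_of_mul h0) h
  exact key _ h2 h1

/-- the ideal given by an embedding -/
def idl {l : ℕ} [Fact l.Prime] (φ : K →+* PadicAlgCl l) : Ideal (𝓞 K) where
  carrier := {x | ‖φ (x : K)‖ < 1}
  add_mem' := by
    intro a b ha hb
    show ‖φ ((a + b : 𝓞 K) : K)‖ < 1
    have h : ((a + b : 𝓞 K) : K) = (a : K) + (b : K) := map_add (algebraMap (𝓞 K) K) a b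
    rw [h, map_add]
    exact (na _ _).trans_lt (max_lt ha hb)
  zero_mem' := by
    show ‖φ ((0 : 𝓞 K) : K)‖ < 1
    have h : ((0 : 𝓞 K) : K) = 0 := map_zero (algebraMap (𝓞 K) K)
    rw [h, map_zero, norm_zero]
    exact zero_lt_one
  smul_mem' := by
    intro c x hx
    show ‖φ ((c * x : 𝓞 K) : K)‖ < 1
    have h : ((c * x : 𝓞 K) : K) = (c : K) * (x : K) := map_mul (algebraMap (𝓞 K) K) c x
    rw [h, map_mul, norm_mul]
    exact mul_lt_one_of_nonneg_of_lt_one_right (int_le φ c) (norm_nonneg _) hx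

lemma mem_idl {l : ℕ} [Fact l.Prime] (φ : K →+* PadicAlgCl l) (x : 𝓞 K) :
    x ∈ idl φ ↔ ‖φ (x : K)‖ < 1 := Iff.rfl

lemma idl_prime {l : ℕ} [Fact l.Prime] (φ : K →+* PadicAlgCl l) : (idl φ).IsPrime := by
  refine ⟨?_, ?_⟩
  · rw [Ideal.ne_top_iff_one, mem_idl]
    have h : ((1 : 𝓞 K) : K) = 1 := map_one (algebraMap (𝓞 K) K)
    rw [h, map_one, norm_one]
    exact lt_irrefl _
  · intro x y hxy
    rw [mem_idl] at hxy ⊢
    rw [mem_idl]
    have h : ((x * y : 𝓞 K) : K) = (x : K) * (y : K) := map_mul (algebraMap (𝓞 K) K) x y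
    rw [h, map_mul, norm_mul] at hxy
    by_contra hcon
    push Not at hcon
    exact absurd hxy (not_lt.mpr (one_le_mul_of_one_le_of_one_le hcon.1 hcon.2))

lemma under_eq {l : ℕ} (hl : l.Prime) {P : Ideal (𝓞 K)} (hP : P.IsPrime) (h : (l : 𝓞 K) ∈ P) :
    P.under ℤ = Ideal.span {(l : ℤ)} := by
  have : Fact l.Prime := ⟨hl⟩
  have hmax : (Ideal.span {(l : ℤ)}).IsMaximal := Int.ideal_span_isMaximal_of_prime l
  have hP' : (P.under ℤ).IsPrime := Ideal.IsPrime.under ℤ P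
  refine (hmax.eq_of_le hP'.ne_top ?_).symm
  rw [Ideal.span_singleton_le_iff_mem, Ideal.mem_under]
  simpa using h

/-- **Every place is given by an embedding.** -/
theorem exists_ctr [IsGalois ℚ K] {l : ℕ} [hl : Fact l.Prime] {v : HeightOneSpectrum (𝓞 K)}
    (hv : (l : 𝓞 K) ∈ v.asIdeal) : ∃ φ : K →+* PadicAlgCl l, Ctr φ v := by
  let φ₀ : K →ₐ[ℚ] PadicAlgCl l := IsAlgClosed.lift
  have hl0 : (l : 𝓞 K) ∈ idl φ₀.toRingHom := by
    rw [mem_idl]
    have h : (((l : ℕ) : 𝓞 K) : K) = ((l : ℕ) : K) := map_natCast (algebraMap (𝓞 K) K) l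
    rw [h, map_natCast, norm_p]
    exact inv_lt_one_of_one_lt₀ p_gt
  have hv' := v.isPrime
  have hi := idl_prime φ₀.toRingHom
  obtain ⟨g, hg⟩ := Algebra.IsInvariant.exists_smul_of_under_eq ℤ (𝓞 K) (K ≃ₐ[ℚ] K)
    (idl φ₀.toRingHom) v.asIdeal
    ((under_eq hl.out hi hl0).trans (under_eq hl.out hv' hv).symm)
  refine ⟨φ₀.toRingHom.comp ((g⁻¹ : K ≃ₐ[ℚ] K) : K →+* K), fun x => ?_⟩
  rw [hg, Ideal.mem_pointwise_smul_iff_inv_smul_mem, mem_idl]
  rfl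

end center

end Pool.Agent.J6H32.RP
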