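import Pool.Agent.J6H32.SQ

/-!
# The local field `ℚ_p(ζ_p)`
-/

set_option autoImplicit false
set_option linter.unusedSectionVars false

namespace Pool.Agent.J6H32.RP

open Pool.Agent.Y715.Nr Pool.Agent.W237.RK
open Polynomial

variable {p : ℕ} [hp : Fact p.Prime]

lemma na (x y : PadicAlgCl p) : ‖x + y‖ ≤ max ‖x‖ ‖y‖ := PadicAlgCl.isNonarchimedean p _ _

lemma norm_p : ‖((p : ℕ) : PadicAlgCl p)‖ = (p : ℝ)⁻¹ := by
  have h : ((p : ℕ) : PadicAlgCl p) = algebraMap ℚ_[p] (PadicAlgCl p) (p : ℚ_[p]) := by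
    rw [map_natCast]
  rw [h]
  show ‖(((p : ℚ_[p])) : PadicAlgCl p)‖ = _
  rw [PadicAlgCl.norm_extends, Padic.norm_p]

lemma norm_alg' (a : ℚ_[p]) : ‖algebraMap ℚ_[p] (PadicAlgCl p) a‖ = ‖a‖ :=
  PadicAlgCl.norm_extends p a

section cyc

variable {z : PadicAlgCl p} (hz : IsPrimitiveRoot z p)

lemma norm_root {y : PadicAlgCl p} {n : ℕ} (hn : n ≠ 0) (h : y ^ n = 1) : ‖y‖ = 1 := by
  have h1 : ‖y‖ ^ n = 1 := by rw [← norm_pow, h, norm_one]
  exact (pow_eq_one_iff_of_nonneg (norm_nonneg _) hn).1 h1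

lemma norm_pow_sub_le {y : PadicAlgCl p} (h : ‖y‖ = 1) (i : ℕ) : ‖y ^ i - 1‖ ≤ ‖y - 1‖ := by
  induction i with
  | zero => simp
  | succ i ih =>
    have e : y ^ (i + 1) - 1 = y ^ i * (y - 1) + (y ^ i - 1) := by ring
    rw [e]
    refine (na _ _).trans (max_le ?_ ih)
    rw [norm_mul, norm_pow, h, one_pow, one_mul]

include hz in
lemma norm_root_sub {y : PadicAlgCl p} (hy : IsPrimitiveRoot y p) : ‖y - 1‖ = ‖z - 1‖ := by
  have hz1 := norm_root hp.out.ne_zero hz.pow_eq_one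
  have hy1 := norm_root hp.out.ne_zero hy.pow_eq_one
  obtain ⟨i, -, hi⟩ := hz.eq_pow_of_pow_eq_one hy.pow_eq_one
  obtain ⟨j, -, hj⟩ := hy.eq_pow_of_pow_eq_one hz.pow_eq_one
  refine le_antisymm ?_ ?_
  · rw [← hi]
    exact norm_pow_sub_le hz1 i
  · rw [← hj]
    exact norm_pow_sub_le hy1 j

include hz in
lemma norm_pi : ‖z - 1‖ ^ (p - 1) = (p : ℝ)⁻¹ := by
  have h1 : eval 1 (cyclotomic p (PadicAlgCl p)) = (p : PadicAlgCl p) := eval_one_cyclotomic_prime
  rw [cyclotomic_eq_prod_X_sub_primitiveRoots hz, eval_prod] at h1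
  have h2 := congrArg norm h1
  rw [norm_prod, norm_p] at h2
  rw [← h2, ← Nat.totient_prime hp.out, ← hz.card_primitiveRoots, ← Finset.prod_const]
  refine Finset.prod_congr rfl fun μ hμ => ?_
  have hμ' := (mem_primitiveRoots hp.out.pos).1 hμ
  rw [eval_sub, eval_X, eval_C, norm_sub_rev 1 μ, norm_root_sub hz hμ']

lemma p_pos : (0 : ℝ) < p := by exact_mod_cast hp.out.pos

lemma p_gt : (1 : ℝ) < p := by exact_mod_cast hp.out.one_lt

include hz in
lemma pi_pos : 0 < ‖z - 1‖ := by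
  rw [norm_pos_iff]
  intro h
  have := norm_pi hz
  rw [h, norm_zero] at this
  have h2 : p - 1 ≠ 0 := by
    have := hp.out.two_le
    omega
  rw [zero_pow h2] at this
  exact (inv_ne_zero p_pos.ne') this.symm

include hz in
lemma pi_lt : ‖z - 1‖ < 1 := by
  by_contra h
  push Not at h
  have h1 := one_le_pow₀ h (n := p - 1)
  rw [norm_pi hz] at h1
  exact absurd h1 (not_le.2 (inv_lt_one_of_one_lt₀ p_gt))

/-- the terms of an expansion -/
noncomputable def tm (z : PadicAlgCl p) (a : ℕ → ℚ_[p]) (i : ℕ) : PadicAlgCl p :=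
  algebraMap ℚ_[p] (PadicAlgCl p) (a i) * (z - 1) ^ i

include hz in
lemma norm_tm (a : ℕ → ℚ_[p]) {i : ℕ} (h : a i ≠ 0) :
    ‖tm z a i‖ = ‖z - 1‖ ^ (((p - 1 : ℕ) : ℤ) * (a i).valuation + i) := by
  have hpi := pi_pos hz
  rw [tm, norm_mul, norm_pow, norm_alg', Padic.norm_eq_zpow_neg_valuation h, zpow_add₀ hpi.ne',
    zpow_natCast, zpow_mul, zpow_natCast, norm_pi hz, inv_zpow, zpow_neg]

include hz in
lemma tm_inj (a : ℕ → ℚ_[p]) {i j : ℕ} (hi : i < p - 1) (hj : j < p - 1) (hai : a i ≠ 0)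
    (haj : a j ≠ 0) (h : ‖tm z a i‖ = ‖tm z a j‖) : i = j := by
  rw [norm_tm hz a hai, norm_tm hz a haj] at h
  have h1 := zpow_right_injective₀ (pi_pos hz) (pi_lt hz).ne h
  have h2 : (((p - 1 : ℕ) : ℤ) * (a i).valuation + i) = ((p - 1 : ℕ) : ℤ) * (a j).valuation + j := h1
  have h3 : (i : ℤ) % ((p - 1 : ℕ) : ℤ) = (j : ℤ) % ((p - 1 : ℕ) : ℤ) := by
    have e1 : (i : ℤ) = ((p - 1 : ℕ) : ℤ) * ((a j).valuation - (a i).valuation) + j := by
      linear_combination h2
    rw [e1, add_comm, Int.add_mul_emod_self_left]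
  rw [Int.emod_eq_of_lt (by omega) (by omega), Int.emod_eq_of_lt (by omega) (by omega)] at h3
  exact_mod_cast h3

include hz in
/-- the norm of an expansion -/
lemma norm_sum (a : ℕ → ℚ_[p]) (hne : ∃ i < p - 1, a i ≠ 0) :
    ∃ j < p - 1, a j ≠ 0 ∧ ‖∑ i ∈ Finset.range (p - 1), tm z a i‖ = ‖tm z a j‖ ∧
      ∀ i < p - 1, ‖tm z a i‖ ≤ ‖tm z a j‖ := by
  classical
  obtain ⟨i₀, hi₀, hai₀⟩ := hne
  have hpi := pi_pos hz
  obtain ⟨j, hj, hmax⟩ := Finset.exists_max_image (Finset.range (p - 1)) (fun i => ‖tm z a i‖)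
    ⟨i₀, Finset.mem_range.2 hi₀⟩
  have hjp : j < p - 1 := Finset.mem_range.1 hj
  have hpos : 0 < ‖tm z a j‖ := by
    refine lt_of_lt_of_le ?_ (hmax i₀ (Finset.mem_range.2 hi₀))
    show 0 < ‖tm z a i₀‖
    rw [norm_tm hz a hai₀]
    positivity
  have haj : a j ≠ 0 := by
    intro h
    rw [tm, h, map_zero, zero_mul, norm_zero] at hpos
    exact lt_irrefl _ hpos
  refine ⟨j, hjp, haj, ?_, fun i hi => hmax i (Finset.mem_range.2 hi)⟩
  refine (PadicAlgCl.isNonarchimedean p).apply_sum_eq_of_lt (fun x => (norm_neg x).symm) hj ?_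
  intro i hi hij
  have hip := Finset.mem_range.1 hi
  refine lt_of_le_of_ne (hmax i hi) fun h => hij ?_
  have hai : a i ≠ 0 := by
    intro h0
    have h1 : ‖tm z a i‖ = 0 := by rw [tm, h0, map_zero, zero_mul, norm_zero]
    rw [← show ‖tm z a i‖ = ‖tm z a j‖ from h, h1] at hpos
    exact lt_irrefl _ hpos
  exact tm_inj hz a hip hjp hai haj h

/-- the polynomial of `z - 1` -/
noncomputable def PP (p : ℕ) [Fact p.Prime] : ℚ_[p][X] := (cyclotomic p ℚ_[p]).comp (X + 1)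

lemma PP_monic : (PP p).Monic := (cyclotomic.monic p _).comp_X_add_C 1

lemma PP_deg : (PP p).natDegree = p - 1 := by
  unfold PP
  rw [natDegree_comp, natDegree_cyclotomic, Nat.totient_prime hp.out, ← C_1, natDegree_X_add_C,
    mul_one]

include hz in
lemma PP_root : aeval (z - 1) (PP p) = 0 := by
  unfold PP
  rw [aeval_comp, map_add, aeval_X, map_one, sub_add_cancel]
  have h := hz.isRoot_cyclotomic hp.out.pos
  rw [IsRoot.def] at h
  rw [aeval_def, ← eval_map, map_cyclotomic]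
  exact h

include hz in
/-- elements of `ℚ_p(z)` have an expansion -/
lemma exp_of_poly (f : ℚ_[p][X]) :
    ∃ a : ℕ → ℚ_[p], aeval z f = ∑ i ∈ Finset.range (p - 1), tm z a i := by
  have h2 := hp.out.two_le
  set g : ℚ_[p][X] := f.comp (X + 1) with hg
  have h1 : aeval z f = aeval (z - 1) g := by
    rw [hg, aeval_comp, map_add, aeval_X, map_one, sub_add_cancel]
  have hne : PP p ≠ 1 := by
    intro h
    have h3 := PP_deg (p := p)
    rw [h, natDegree_one] at h3
    omega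
  have h3 : (g %ₘ PP p).natDegree < p - 1 := by
    rw [← PP_deg (p := p)]
    exact natDegree_modByMonic_lt g PP_monic hne
  refine ⟨(g %ₘ PP p).coeff, ?_⟩
  rw [h1, ← aeval_modByMonic_eq_self_of_root (PP_root hz), aeval_eq_sum_range' h3]
  refine Finset.sum_congr rfl fun i _ => ?_
  rw [tm, Algebra.smul_def]

include hz in
/-- elements fixed by the stabilizer of `z` have an expansion -/
lemma exists_exp {x : PadicAlgCl p} (h : ∀ τ : Au p, τ z = z → τ x = x) :
    ∃ a : ℕ → ℚ_[p], x = ∑ i ∈ Finset.range (p - 1), tm z a i := by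
  have hint : IsAlgebraic ℚ_[p] z := Algebra.IsAlgebraic.isAlgebraic z
  have h1 : x ∈ IntermediateField.adjoin ℚ_[p] {z} := by
    rw [← InfiniteGalois.fixedField_fixingSubgroup (IntermediateField.adjoin ℚ_[p] {z}),
      IntermediateField.mem_fixedField_iff]
    intro τ hτ
    exact h τ ((IntermediateField.mem_fixingSubgroup_iff _ _).1 hτ z
      (IntermediateField.mem_adjoin_simple_self _ z))
  have h2 : x ∈ Algebra.adjoin ℚ_[p] {z} := by
    rw [← IntermediateField.adjoin_simple_toSubalgebra_of_isAlgebraic hint]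
    exact h1
  rw [Algebra.adjoin_singleton_eq_range_aeval] at h2
  obtain ⟨f, rfl⟩ := h2
  exact exp_of_poly hz f

include hz in
/-- the values of the norm -/
theorem L1 {x : PadicAlgCl p} (hx : x ≠ 0) (h : ∀ τ : Au p, τ z = z → τ x = x) :
    ∃ m : ℤ, ‖x‖ = ‖z - 1‖ ^ m := by
  obtain ⟨a, rfl⟩ := exists_exp hz h
  have hne : ∃ i < p - 1, a i ≠ 0 := by
    by_contra hcon
    push Not at hcon
    apply hx
    refine Finset.sum_eq_zero fun i hi => ?_
    rw [tm, hcon i (Finset.mem_range.1 hi), map_zero, zero_mul]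
  obtain ⟨j, -, haj, hj, -⟩ := norm_sum hz a hne
  exact ⟨_, hj.trans (norm_tm hz a haj)⟩

include hz in
/-- the residues -/
theorem L2 {x : PadicAlgCl p} (hx : ‖x‖ ≤ 1) (h : ∀ τ : Au p, τ z = z → τ x = x) :
    ∃ n : ℤ, ‖x - n‖ ≤ ‖z - 1‖ := by
  classical
  obtain ⟨a, rfl⟩ := exists_exp hz h
  have hpi := pi_pos hz
  have hlt := pi_lt hz
  have h2 := hp.out.two_le
  by_cases hne : ∃ i < p - 1, a i ≠ 0
  · obtain ⟨j, -, -, hj, hmax⟩ := norm_sum hz a hne
    have hval : ∀ i < p - 1, a i ≠ 0 → 0 ≤ (a i).valuation := by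
      intro i hi hai
      have h1 := (hmax i hi).trans (hj ▸ hx)
      rw [norm_tm hz a hai] at h1
      by_contra hneg
      push Not at hneg
      have h3 : ((p - 1 : ℕ) : ℤ) * (a i).valuation + i < 0 := by
        have : ((p - 1 : ℕ) : ℤ) * (a i).valuation ≤ -((p - 1 : ℕ) : ℤ) := by nlinarith
        omega
      have h4 := one_lt_zpow_of_neg₀ hpi hlt h3
      linarith
    have hint : ∀ i < p - 1, ‖a i‖ ≤ 1 := by
      intro i hi
      by_cases hai : a i = 0
      · rw [hai, norm_zero]; exact zero_le_one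
      · rw [Padic.norm_eq_zpow_neg_valuation hai]
        exact zpow_le_one_of_nonpos₀ p_gt.le (neg_nonpos.2 (hval i hi hai))
    have h0 : ‖a 0‖ ≤ 1 := hint 0 (by omega)
    obtain ⟨n, hn⟩ : ∃ n : ℤ, ‖a 0 - n‖ ≤ (p : ℝ)⁻¹ := by
      let y : ℤ_[p] := ⟨a 0, h0⟩
      obtain ⟨m, -, hm⟩ := PadicInt.exists_mem_range y
      rw [PadicInt.maximalIdeal_eq_span_p, ← pow_one (p : ℤ_[p]),
        ← PadicInt.norm_le_pow_iff_mem_span_pow] at hm
      refine ⟨m, ?_⟩
      have e : ((y - (m : ℤ_[p]) : ℤ_[p]) : ℚ_[p]) = a 0 - ((m : ℤ) : ℚ_[p]) := by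
        push_cast
        rfl
      rw [← e, ← PadicInt.norm_def]
      refine hm.trans (le_of_eq ?_)
      norm_num
    refine ⟨n, ?_⟩
    have e : ∑ i ∈ Finset.range (p - 1), tm z a i - n =
        ∑ i ∈ Finset.range (p - 1), (if i = 0 then algebraMap ℚ_[p] (PadicAlgCl p) (a 0 - n)
          else tm z a i) := by
      have e1 : ∀ i ∈ Finset.range (p - 1), (if i = 0 then
          algebraMap ℚ_[p] (PadicAlgCl p) (a 0 - n) else tm z a i) =
          tm z a i - (if i = 0 then (n : PadicAlgCl p) else 0) := by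
        intro i _
        by_cases hi : i = 0
        · subst hi
          rw [if_pos rfl, if_pos rfl, map_sub, map_intCast, tm, pow_zero, mul_one]
        · rw [if_neg hi, if_neg hi, sub_zero]
      rw [Finset.sum_congr rfl e1, Finset.sum_sub_distrib, Finset.sum_ite_eq',
        if_pos (Finset.mem_range.2 (by omega))]
    rw [e]
    refine IsUltrametricDist.norm_sum_le_of_forall_le_of_nonneg hpi.le fun i hi => ?_
    by_cases h0i : i = 0
    · rw [if_pos h0i, norm_alg']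
      refine hn.trans ?_
      rw [← norm_pi hz]
      calc ‖z - 1‖ ^ (p - 1) ≤ ‖z - 1‖ ^ 1 := pow_le_pow_of_le_one hpi.le hlt.le (by omega)
        _ = ‖z - 1‖ := pow_one _
    · rw [if_neg h0i, tm, norm_mul, norm_pow, norm_alg']
      have h5 : ‖z - 1‖ ^ i ≤ ‖z - 1‖ := by
        calc ‖z - 1‖ ^ i ≤ ‖z - 1‖ ^ 1 := pow_le_pow_of_le_one hpi.le hlt.le (by omega)
          _ = ‖z - 1‖ := pow_one _
      calc ‖a i‖ * ‖z - 1‖ ^ i ≤ 1 * ‖z - 1‖ :=
            mul_le_mul (hint i (Finset.mem_range.1 hi)) h5 (by positivity) zero_le_one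
        _ = ‖z - 1‖ := one_mul _
  · push Not at hne
    refine ⟨0, ?_⟩
    have e : ∑ i ∈ Finset.range (p - 1), tm z a i = 0 := by
      refine Finset.sum_eq_zero fun i hi => ?_
      rw [tm, hne i (Finset.mem_range.1 hi), map_zero, zero_mul]
    rw [e, Int.cast_zero, sub_zero, norm_zero]
    exact hpi.le

/-- the ring of integers -/
def OO (p : ℕ) [Fact p.Prime] : Subring (PadicAlgCl p) where
  carrier := {x | ‖x‖ ≤ 1}
  mul_mem' := by
    intro a b ha hb
    show ‖a * b‖ ≤ 1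
    rw [norm_mul]
    exact mul_le_one₀ ha (norm_nonneg _) hb
  one_mem' := by
    show ‖(1 : PadicAlgCl p)‖ ≤ 1
    rw [norm_one]
  add_mem' := by
    intro a b ha hb
    exact (na a b).trans (max_le ha hb)
  zero_mem' := by
    show ‖(0 : PadicAlgCl p)‖ ≤ 1
    rw [norm_zero]
    exact zero_le_one
  neg_mem' := by
    intro a ha
    show ‖-a‖ ≤ 1
    rw [norm_neg]
    exact ha

lemma int_norm (n : ℤ) : ‖(n : PadicAlgCl p)‖ ≤ 1 := intCast_mem (OO p) n

include hz in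
/-- `p`-th powers -/
theorem pow_near {x : PadicAlgCl p} (hx : ‖x‖ ≤ 1) (h : ∀ τ : Au p, τ z = z → τ x = x) :
    ∃ n : ℤ, ‖x ^ p - n‖ ≤ (p : ℝ)⁻¹ := by
  obtain ⟨n, hn⟩ := L2 hz hx h
  have hlt := pi_lt hz
  have hpi := pi_pos hz
  have hd1 : ‖x - n‖ ≤ 1 := hn.trans hlt.le
  obtain ⟨r, hr⟩ := exists_add_pow_prime_eq hp.out (⟨n, int_norm n⟩ : OO p) ⟨x - n, hd1⟩
  refine ⟨n ^ p, ?_⟩
  have hr' := congrArg (Subtype.val : OO p → PadicAlgCl p) hr
  push_cast at hr'
  have e : x ^ p - ((n ^ p : ℤ) : PadicAlgCl p) = (x - n) ^ p + p * (n * (x - n) * r) := by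
    have e1 : (n : PadicAlgCl p) + (x - n) = x := by ring
    rw [e1] at hr'
    rw [hr']
    push_cast
    ring
  rw [e]
  refine (na _ _).trans (max_le ?_ ?_)
  · rw [norm_pow]
    calc ‖x - n‖ ^ p ≤ ‖z - 1‖ ^ p := pow_le_pow_left₀ (norm_nonneg _) hn p
      _ ≤ ‖z - 1‖ ^ (p - 1) := pow_le_pow_of_le_one hpi.le hlt.le (by omega)
      _ = (p : ℝ)⁻¹ := norm_pi hz
  · rw [norm_mul, norm_p]
    refine mul_le_of_le_one_right (inv_nonneg.2 p_pos.le) ?_
    rw [norm_mul, norm_mul]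
    exact mul_le_one₀ (mul_le_one₀ (int_norm n) (norm_nonneg _) hd1) (norm_nonneg _) r.2

include hz in
/-- independence of the powers -/
lemma indep (a : ℕ → ℚ_[p]) (h : ∑ i ∈ Finset.range (p - 1), tm z a i = 0) :
    ∀ i < p - 1, a i = 0 := by
  by_contra hcon
  push Not at hcon
  obtain ⟨j, hj1, haj, hj, -⟩ := norm_sum hz a hcon
  rw [h, norm_zero, norm_tm hz a haj] at hj
  have := pi_pos hz
  have h2 : 0 < ‖z - 1‖ ^ (((p - 1 : ℕ) : ℤ) * (a j).valuation + j) := by positivity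
  rw [← hj] at h2
  exact lt_irrefl _ h2

include hz in
/-- the minimal polynomial -/
theorem minpoly_z : minpoly ℚ_[p] z = cyclotomic p ℚ_[p] := by
  have hint : IsIntegral ℚ_[p] z := Algebra.IsIntegral.isIntegral z
  have hroot : aeval z (cyclotomic p ℚ_[p]) = 0 := by
    have h := hz.isRoot_cyclotomic hp.out.pos
    rw [IsRoot.def] at h
    rw [aeval_def, ← eval_map, map_cyclotomic]
    exact h
  have hdvd : minpoly ℚ_[p] z ∣ cyclotomic p ℚ_[p] := minpoly.dvd _ _ hroot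
  refine (eq_of_monic_of_dvd_of_natDegree_le (minpoly.monic hint) (cyclotomic.monic p _) hdvd ?_).symm
  rw [natDegree_cyclotomic, Nat.totient_prime hp.out]
  by_contra hcon
  push Not at hcon
  set g : ℚ_[p][X] := (minpoly ℚ_[p] z).comp (X + 1) with hg
  have h1 : aeval (z - 1) g = 0 := by
    rw [hg, aeval_comp, map_add, aeval_X, map_one, sub_add_cancel, minpoly.aeval]
  have h3 : g.natDegree < p - 1 := by
    rw [hg, natDegree_comp, ← C_1, natDegree_X_add_C, mul_one]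
    exact hcon
  rw [aeval_eq_sum_range' h3] at h1
  have h4 := indep hz g.coeff (by
    rw [← h1]
    refine Finset.sum_congr rfl fun i _ => ?_
    rw [tm, Algebra.smul_def])
  have h5 : g = 0 := by
    ext i
    by_cases hi : i < p - 1
    · rw [h4 i hi, coeff_zero]
    · rw [coeff_eq_zero_of_natDegree_lt (by omega), coeff_zero]
  have h6 : g.Monic := (minpoly.monic hint).comp_X_add_C 1
  rw [h5] at h6
  exact not_monic_zero h6

include hz in
/-- the Galois group of `ℚ_p(z)` -/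
theorem surj {y : PadicAlgCl p} (hy : IsPrimitiveRoot y p) : ∃ τ : Au p, τ z = y := by
  have hconj : IsConjRoot ℚ_[p] y z := by
    rw [isConjRoot_def, minpoly_z hz, minpoly_z hy]
  exact isConjRoot_iff_exists_algEquiv.1 hconj

end cyc

end Pool.Agent.J6H32.RP
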