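import Pool.Agent.J6H32.RP.Dens

/-!
# Rigidity: a representation is determined by its restriction to the decomposition group
-/

set_option autoImplicit false
set_option linter.unusedSectionVars false

namespace Pool.Agent.J6H32.RP

open NumberField
open Pool.Agent.Z384 Pool.Agent.J6H32.SQ
open Pool.Agent.Y715.Red Pool.Agent.Y715.Nr Pool.Agent.W237.RK
open Pool.Agent.Y715.Gi (QB KK GK i₀_mem gk_fix)
open Pool.Agent.Y715.Df (Cmp exists_cmp gh)
open IsLocalRing Matrix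

section dsum

variable {A : Type*} [CommRing A] {n m : ℕ} {G : Type*} [Group G]

/-- the sum of two representations, with values in the matrices -/
noncomputable def dsumM (ρ : G →* GL (Fin n) A) (ρ' : G →* GL (Fin m) A) :
    G →* Matrix (Fin (n + m)) (Fin (n + m)) A where
  toFun g := (fromBlocks (ρ g : Matrix (Fin n) (Fin n) A) 0 0
    (ρ' g : Matrix (Fin m) (Fin m) A)).submatrix finSumFinEquiv.symm finSumFinEquiv.symm
  map_one' := by
    rw [map_one, map_one, Units.val_one, Units.val_one, fromBlocks_one, submatrix_one_equiv]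
  map_mul' g h := by
    rw [submatrix_mul_equiv, fromBlocks_multiply, map_mul, map_mul, Units.val_mul, Units.val_mul]
    simp

/-- the sum of two representations -/
noncomputable def dsum (ρ : G →* GL (Fin n) A) (ρ' : G →* GL (Fin m) A) :
    G →* GL (Fin (n + m)) A := (dsumM ρ ρ').toHomUnits

lemma dsum_val (ρ : G →* GL (Fin n) A) (ρ' : G →* GL (Fin m) A) (g : G) :
    (dsum ρ ρ' g : Matrix (Fin (n + m)) (Fin (n + m)) A) =
      (fromBlocks (ρ g : Matrix (Fin n) (Fin n) A) 0 0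
        (ρ' g : Matrix (Fin m) (Fin m) A)).submatrix finSumFinEquiv.symm finSumFinEquiv.symm := rfl

lemma dsum_cont [TopologicalSpace G] [TopologicalSpace A] {ρ : G →* GL (Fin n) A}
    {ρ' : G →* GL (Fin m) A}
    (hρ : ∀ i j, Continuous fun σ => (ρ σ : Matrix (Fin n) (Fin n) A) i j)
    (hρ' : ∀ i j, Continuous fun σ => (ρ' σ : Matrix (Fin m) (Fin m) A) i j) (i j) :
    Continuous fun σ => (dsum ρ ρ' σ : Matrix (Fin (n + m)) (Fin (n + m)) A) i j := by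
  simp only [dsum_val, submatrix_apply]
  rcases finSumFinEquiv.symm i with i' | i' <;> rcases finSumFinEquiv.symm j with j' | j'
  · exact hρ i' j'
  · exact continuous_const
  · exact continuous_const
  · exact hρ' i' j'

lemma dsum_res {I : Ideal A} {ρ : G →* GL (Fin n) A} {ρ' : G →* GL (Fin m) A} {g : G}
    (h : ∃ M : ℕ, InI I (((ρ g : Matrix (Fin n) (Fin n) A) - 1) ^ M))
    (h' : ∃ M : ℕ, InI I (((ρ' g : Matrix (Fin m) (Fin m) A) - 1) ^ M)) :
    ∃ M : ℕ, InI I (((dsum ρ ρ' g : Matrix (Fin (n + m)) (Fin (n + m)) A) - 1) ^ M) := by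
  obtain ⟨M, hM⟩ := h
  obtain ⟨M', hM'⟩ := h'
  refine ⟨M + M', ?_⟩
  have e1 : ((dsum ρ ρ' g : Matrix (Fin (n + m)) (Fin (n + m)) A) - 1) =
      (fromBlocks ((ρ g : Matrix (Fin n) (Fin n) A) - 1) 0 0
        ((ρ' g : Matrix (Fin m) (Fin m) A) - 1)).submatrix finSumFinEquiv.symm
          finSumFinEquiv.symm := by
    have e2 : (1 : Matrix (Fin (n + m)) (Fin (n + m)) A) =
        (fromBlocks (1 : Matrix (Fin n) (Fin n) A) 0 0
          (1 : Matrix (Fin m) (Fin m) A)).submatrix finSumFinEquiv.symm finSumFinEquiv.symm := by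
      rw [fromBlocks_one, submatrix_one_equiv]
    rw [dsum_val, e2]
    ext i j
    rw [Matrix.sub_apply, submatrix_apply, submatrix_apply, submatrix_apply]
    rcases finSumFinEquiv.symm i with i' | i' <;> rcases finSumFinEquiv.symm j with j' | j' <;>
      simp
  have e3 : ∀ k : ℕ, ((fromBlocks ((ρ g : Matrix (Fin n) (Fin n) A) - 1) 0 0
        ((ρ' g : Matrix (Fin m) (Fin m) A) - 1)).submatrix finSumFinEquiv.symm
          finSumFinEquiv.symm) ^ k =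
      (fromBlocks (((ρ g : Matrix (Fin n) (Fin n) A) - 1) ^ k) 0 0
        (((ρ' g : Matrix (Fin m) (Fin m) A) - 1) ^ k)).submatrix finSumFinEquiv.symm
          finSumFinEquiv.symm := by
    intro k
    induction k with
    | zero =>
      rw [pow_zero, pow_zero, pow_zero, fromBlocks_one, submatrix_one_equiv]
    | succ k ih =>
      rw [pow_succ, ih, submatrix_mul_equiv, fromBlocks_multiply]
      simp [pow_succ]
  rw [e1, e3]
  have h1 : InI I (((ρ g : Matrix (Fin n) (Fin n) A) - 1) ^ (M + M')) := by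
    rw [add_comm, pow_add]
    exact hM.mulL _
  have h2 : InI I (((ρ' g : Matrix (Fin m) (Fin m) A) - 1) ^ (M + M')) := by
    rw [pow_add]
    exact hM'.mulL _
  intro i j
  rw [submatrix_apply]
  rcases finSumFinEquiv.symm i with i' | i' <;> rcases finSumFinEquiv.symm j with j' | j'
  · exact h1 i' j'
  · exact I.zero_mem
  · exact I.zero_mem
  · exact h2 i' j'

lemma dsum_one {ρ : G →* GL (Fin n) A} {ρ' : G →* GL (Fin m) A} {g : G} (h : ρ g = 1)
    (h' : ρ' g = 1) : dsum ρ ρ' g = 1 := by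
  apply Units.ext
  rw [dsum_val, h, h', Units.val_one, Units.val_one, fromBlocks_one, submatrix_one_equiv,
    Units.val_one]

end dsum

section graph

variable {A : Type*} [CommRing A] [IsLocalRing A] [IsNoetherianRing A] {n m : ℕ}
variable {G : Type*} [Group G]
variable {F : Type*} [Field F] [Algebra A F] [IsFractionRing A F]

/-- a pair of vectors as a vector -/
def pair (v : Fin n → F) (w : Fin m → F) : Fin (n + m) → F :=
  fun i => Sum.elim v w (finSumFinEquiv.symm i)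

lemma pair_inj {v v' : Fin n → F} {w w' : Fin m → F} (h : pair v w = pair v' w') :
    v = v' ∧ w = w' := by
  constructor
  · funext i
    have := congrFun h (finSumFinEquiv (Sum.inl i))
    simpa [pair] using this
  · funext i
    have := congrFun h (finSumFinEquiv (Sum.inr i))
    simpa [pair] using this

lemma exists_pair (u : Fin (n + m) → F) : ∃ (v : Fin n → F) (w : Fin m → F), u = pair v w := by
  refine ⟨fun i => u (finSumFinEquiv (Sum.inl i)), fun i => u (finSumFinEquiv (Sum.inr i)), ?_⟩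
  funext i
  obtain ⟨j, rfl⟩ := finSumFinEquiv.surjective i
  rcases j with j | j <;> simp [pair]

lemma act_pair (ρ : G →* GL (Fin n) A) (ρ' : G →* GL (Fin m) A) (g : G) (v : Fin n → F)
    (w : Fin m → F) : act F (dsum ρ ρ') g (pair v w) = pair (act F ρ g v) (act F ρ' g w) := by
  funext i
  rw [act_apply, act_apply, act_apply, dsum_val]
  obtain ⟨j, rfl⟩ := finSumFinEquiv.surjective i
  simp only [mulVec, dotProduct, pair, map_apply, submatrix_apply, Equiv.symm_apply_apply]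
  rw [← finSumFinEquiv.sum_comp]
  simp only [Equiv.symm_apply_apply, Fintype.sum_sum_type]
  rcases j with j | j <;> simp [mulVec, dotProduct]

/-- the graph of a matrix -/
def grf (T : Matrix (Fin m) (Fin n) F) : Submodule F (Fin (n + m) → F) where
  carrier := {u | ∃ v, u = pair v (T *ᵥ v)}
  add_mem' := by
    rintro _ _ ⟨v, rfl⟩ ⟨w, rfl⟩
    refine ⟨v + w, ?_⟩
    rw [mulVec_add]
    funext i
    rw [Pi.add_apply]
    simp only [pair]
    rcases finSumFinEquiv.symm i with j | j <;> rfl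
  zero_mem' := by
    refine ⟨0, ?_⟩
    rw [mulVec_zero]
    funext i
    simp only [pair]
    rcases finSumFinEquiv.symm i with j | j <;> rfl
  smul_mem' := by
    rintro c _ ⟨v, rfl⟩
    refine ⟨c • v, ?_⟩
    rw [mulVec_smul]
    funext i
    rw [Pi.smul_apply]
    simp only [pair]
    rcases finSumFinEquiv.symm i with j | j <;> rfl

/-- the matrix of `g` over `F` -/
noncomputable def mt (F : Type*) [Field F] [Algebra A F] (ρ : G →* GL (Fin n) A) (g : G) :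
    Matrix (Fin n) (Fin n) F :=
  (ρ g : Matrix (Fin n) (Fin n) A).map (algebraMap A F)

lemma mt_mul (ρ : G →* GL (Fin n) A) (g h : G) : mt F ρ (g * h) = mt F ρ g * mt F ρ h := by
  rw [mt, map_mul, Units.val_mul, Matrix.map_mul]
  rfl

lemma mt_one (ρ : G →* GL (Fin n) A) : mt F ρ 1 = 1 := by
  rw [mt, map_one, Units.val_one, Matrix.map_one _ (map_zero _) (map_one _)]

lemma mt_inv (ρ : G →* GL (Fin n) A) (g : G) : mt F ρ g⁻¹ * mt F ρ g = 1 := by
  rw [← mt_mul, inv_mul_cancel, mt_one]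

lemma mt_inv' (ρ : G →* GL (Fin n) A) (g : G) : mt F ρ g * mt F ρ g⁻¹ = 1 := by
  rw [← mt_mul, mul_inv_cancel, mt_one]

lemma grf_iff {T : Matrix (Fin m) (Fin n) F} {ρ : G →* GL (Fin n) A} {ρ' : G →* GL (Fin m) A}
    {g : G} : (∀ u ∈ grf T, act F (dsum ρ ρ') g u ∈ grf T) ↔
      T * mt F ρ g = mt F ρ' g * T := by
  constructor
  · intro h
    apply Matrix.ext_of_mulVec_single
    intro i
    obtain ⟨v, hv⟩ := h _ ⟨Pi.single i 1, rfl⟩
    rw [act_pair] at hv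
    obtain ⟨h1, h2⟩ := pair_inj hv
    rw [← h1, act_apply, act_apply] at h2
    rw [← mulVec_mulVec, ← mulVec_mulVec]
    exact h2.symm
  · rintro h _ ⟨v, rfl⟩
    refine ⟨act F ρ g v, ?_⟩
    rw [act_pair]
    congr 1
    rw [act_apply, act_apply, mulVec_mulVec, mulVec_mulVec]
    exact congrArg (· *ᵥ v) h.symm

lemma mem_stb_grf {T : Matrix (Fin m) (Fin n) F} {ρ : G →* GL (Fin n) A} {ρ' : G →* GL (Fin m) A}
    {g : G} (h : g ∈ stb (dsum ρ ρ') (grf T)) : T * mt F ρ g = mt F ρ' g * T :=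
  grf_iff.1 fun u hu => (h u).1 hu

/-- **Potential isomorphisms.** -/
theorem rig [TopologicalSpace G] [IsTopologicalGroup G] [TopologicalSpace A]
    (hA : IsAdic (maximalIdeal A)) {ρ ρ' : G →* GL (Fin n) A}
    (hρ : ∀ i j, Continuous fun σ => (ρ σ : Matrix (Fin n) (Fin n) A) i j)
    (hρ' : ∀ i j, Continuous fun σ => (ρ' σ : Matrix (Fin n) (Fin n) A) i j) {D D' : Subgroup G}
    (happ : ∀ (m : ℕ) (g : G), ∃ δ ∈ D, δ⁻¹ * g ∈ cong (dsum ρ ρ') m)
    {R : Set G} (hRf : R.Finite) (hR : ∀ δ ∈ D, ∃ r ∈ R, r⁻¹ * δ ∈ D')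
    {T : Matrix (Fin n) (Fin n) F} (hT : IsUnit T)
    (hD' : ∀ δ ∈ D', T * mt F ρ δ = mt F ρ' δ * T)
    (hirr : ∀ U : Subgroup G, IsOpen (U : Set G) → ∀ X : Matrix (Fin n) (Fin n) F,
      (∀ σ ∈ U, X * mt F ρ σ = mt F ρ σ * X) → ∃ c : F, X = c • 1) :
    ∃ χ : G →* Fˣ, IsOpen (χ.ker : Set G) ∧
      ∀ σ, T * mt F ρ σ = (χ σ : F) • (mt F ρ' σ * T) := by
  rcases Nat.eq_zero_or_pos n with hn | hn
  · subst hn
    refine ⟨1, ?_, fun σ => Subsingleton.elim _ _⟩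
    rw [MonoidHom.ker_one]
    exact isOpen_univ
  have hne : Nonempty (Fin n) := ⟨⟨0, hn⟩⟩
  set S : Subgroup G := stb (dsum ρ ρ') (grf T) with hS
  have hSf : S.FiniteIndex := stab_fin (dsum ρ ρ') happ hRf hR
    (fun δ hδ u hu => grf_iff.2 (hD' δ hδ) u hu)
  have hSc : IsClosed (S : Set G) := stb_closed hA (dsum_cont hρ hρ') (grf T)
  set N : Subgroup G := S.normalCore with hN
  have hNo : IsOpen (N : Set G) :=
    Subgroup.isOpen_of_isClosed_of_finiteIndex _ (S.normalCore_isClosed hSc)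
  obtain ⟨T', hT'⟩ : ∃ T' : Matrix (Fin n) (Fin n) F, T' * T = 1 ∧ T * T' = 1 := by
    obtain ⟨u, hu⟩ := hT
    exact ⟨(u⁻¹ : (Matrix (Fin n) (Fin n) F)ˣ), by rw [← hu, Units.inv_mul], by
      rw [← hu, Units.mul_inv]⟩
  have key : ∀ g : G, ∃ c : F, T * mt F ρ g = c • (mt F ρ' g * T) := by
    intro g
    obtain ⟨c, hc⟩ := hirr N hNo (T' * (mt F ρ' g⁻¹ * T * mt F ρ g)) fun σ hσ => by
      have h1 : T * mt F ρ σ = mt F ρ' σ * T :=
        mem_stb_grf (S.normalCore_le hσ)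
      have h2 : T * mt F ρ (g * σ * g⁻¹) = mt F ρ' (g * σ * g⁻¹) * T := mem_stb_grf (hσ g)
      have h3 : mt F ρ' g⁻¹ * T * mt F ρ g * mt F ρ σ = mt F ρ' σ * (mt F ρ' g⁻¹ * T * mt F ρ g) := by
        have e1 : mt F ρ g * mt F ρ σ = mt F ρ (g * σ * g⁻¹) * mt F ρ g := by
          rw [← mt_mul, ← mt_mul]
          congr 1
          group
        have e2 : mt F ρ' g⁻¹ * mt F ρ' (g * σ * g⁻¹) = mt F ρ' σ * mt F ρ' g⁻¹ := by
          rw [← mt_mul, ← mt_mul]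
          congr 1
          group
        calc mt F ρ' g⁻¹ * T * mt F ρ g * mt F ρ σ
            = mt F ρ' g⁻¹ * (T * (mt F ρ g * mt F ρ σ)) := by simp only [Matrix.mul_assoc]
          _ = mt F ρ' g⁻¹ * ((T * mt F ρ (g * σ * g⁻¹)) * mt F ρ g) := by
              rw [e1]; simp only [Matrix.mul_assoc]
          _ = (mt F ρ' g⁻¹ * mt F ρ' (g * σ * g⁻¹)) * (T * mt F ρ g) := by
              rw [h2]; simp only [Matrix.mul_assoc]
          _ = mt F ρ' σ * (mt F ρ' g⁻¹ * T * mt F ρ g) := by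
              rw [e2]; simp only [Matrix.mul_assoc]
      have h4 : T' * mt F ρ' σ = mt F ρ σ * T' := by
        calc T' * mt F ρ' σ = T' * (mt F ρ' σ * T) * T' := by
              rw [Matrix.mul_assoc, Matrix.mul_assoc, hT'.2, Matrix.mul_one]
          _ = T' * (T * mt F ρ σ) * T' := by rw [h1]
          _ = (T' * T) * (mt F ρ σ * T') := by simp only [Matrix.mul_assoc]
          _ = mt F ρ σ * T' := by rw [hT'.1, Matrix.one_mul]
      calc T' * (mt F ρ' g⁻¹ * T * mt F ρ g) * mt F ρ σ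
          = T' * (mt F ρ' g⁻¹ * T * mt F ρ g * mt F ρ σ) := by simp only [Matrix.mul_assoc]
        _ = T' * (mt F ρ' σ * (mt F ρ' g⁻¹ * T * mt F ρ g)) := by rw [h3]
        _ = (T' * mt F ρ' σ) * (mt F ρ' g⁻¹ * T * mt F ρ g) := by simp only [Matrix.mul_assoc]
        _ = mt F ρ σ * (T' * (mt F ρ' g⁻¹ * T * mt F ρ g)) := by
            rw [h4]; simp only [Matrix.mul_assoc]
    refine ⟨c, ?_⟩
    calc T * mt F ρ g = (mt F ρ' g * mt F ρ' g⁻¹) * (T * mt F ρ g) := by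
          rw [mt_inv', Matrix.one_mul]
      _ = mt F ρ' g * ((T * T') * (mt F ρ' g⁻¹ * T * mt F ρ g)) := by
          rw [hT'.2, Matrix.one_mul]; simp only [Matrix.mul_assoc]
      _ = mt F ρ' g * (T * (T' * (mt F ρ' g⁻¹ * T * mt F ρ g))) := by simp only [Matrix.mul_assoc]
      _ = mt F ρ' g * (T * (c • 1)) := by rw [hc]
      _ = c • (mt F ρ' g * T) := by
          rw [Matrix.mul_smul, Matrix.mul_one, Matrix.mul_smul]
  choose c hc using key
  have hinv : ∀ (g : G) (x y : F), x • (mt F ρ' g * T) = y • (mt F ρ' g * T) → x = y := by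
    intro g x y h
    have h1 := congrArg (fun M => mt F ρ' g⁻¹ * M * T') h
    simp only [Matrix.mul_smul, Matrix.smul_mul] at h1
    have e : mt F ρ' g⁻¹ * (mt F ρ' g * T) * T' = 1 := by
      calc mt F ρ' g⁻¹ * (mt F ρ' g * T) * T' = (mt F ρ' g⁻¹ * mt F ρ' g) * (T * T') := by
            simp only [Matrix.mul_assoc]
        _ = 1 := by rw [mt_inv, hT'.2, Matrix.one_mul]
    rw [e] at h1
    have h2 := congrFun (congrFun h1 ⟨0, hn⟩) ⟨0, hn⟩
    simpa using h2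
  have hc1 : ∀ g ∈ S, c g = 1 := by
    intro g hg
    apply hinv g
    rw [← hc g, one_smul]
    exact mem_stb_grf hg
  have hcm : ∀ g h : G, c (g * h) = c g * c h := by
    intro g h
    apply hinv (g * h)
    rw [← hc (g * h), mt_mul, ← Matrix.mul_assoc, hc g, Matrix.smul_mul, Matrix.mul_assoc, hc h,
      Matrix.mul_smul, smul_smul, mt_mul, Matrix.mul_assoc]
  let χ₀ : G →* F :=
    { toFun := c
      map_one' := hc1 1 (one_mem _)
      map_mul' := hcm }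
  refine ⟨χ₀.toHomUnits, ?_, fun σ => hc σ⟩
  refine Subgroup.isOpen_mono (H₁ := N) (fun g hg => ?_) hNo
  rw [MonoidHom.mem_ker]
  apply Units.ext
  exact hc1 g (S.normalCore_le hg)

end graph

section cls

variable {p : ℕ} [hp : Fact p.Prime] {z : QB} (hz : IsPrimitiveRoot z p)
variable {A : Type*} [CommRing A] [IsLocalRing A] [IsNoetherianRing A] [TopologicalSpace A]
variable {n n' : ℕ} {F : Type*} [Field F] [Algebra A F] [IsFractionRing A F]

include hz in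
/-- **Stable subspaces.** -/
theorem subP (hp2 : 2 < p) (hreg : (classNumber (CyclotomicField p ℚ)).Coprime p)
    {q : ℕ} (hq : q.Prime) (hord : orderOf ((q : ℕ) : ZMod (p ^ 2)) = p * (p - 1))
    (hA : IsAdic (maximalIdeal A)) (hfin : Finite (ResidueField A)) (h2 : (p : A) ∈ maximalIdeal A)
    {ρ : (QB ≃ₐ[ℚ] QB) →* GL (Fin n) A}
    (hρ : ∀ i j, Continuous fun σ => (ρ σ : Matrix (Fin n) (Fin n) A) i j)
    (hres : ∀ σ : QB ≃ₐ[ℚ] QB, σ z = z → ∃ M : ℕ,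
      InI (maximalIdeal A) (((ρ σ : Matrix (Fin n) (Fin n) A) - 1) ^ M))
    (hu : ∀ (l : ℕ) [Fact l.Prime] (ι : QB →ₐ[ℚ] PadicAlgCl l), l ≠ p → l ≠ q →
      ∀ (σ : QB ≃ₐ[ℚ] QB) (τ : Au l), (∀ x, τ (ι x) = ι (σ x)) → Inert τ → ρ σ = 1)
    (ι₀ : QB →ₐ[ℚ] PadicAlgCl p) {W : Submodule F (Fin n → F)}
    (hD : ∀ δ ∈ DP ι₀, ∀ w ∈ W, act F ρ δ w ∈ W) (g : QB ≃ₐ[ℚ] QB) :
    ∀ w ∈ W, act F ρ g w ∈ W := by
  have hD' : DP ι₀ ≤ stb ρ W := by
    intro δ hδ w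
    refine ⟨hD δ hδ w, fun hw => ?_⟩
    have := hD δ⁻¹ (inv_mem hδ) _ hw
    rwa [← act_mul, inv_mul_cancel, act_one] at this
  intro w hw
  exact (stb_of_lim ρ W hD' (fun m => densP hz hp2 hreg hq hord hA hfin h2 hρ hres hu ι₀ m g)
    w).1 hw

include hz in
/-- **Homomorphisms.** -/
theorem homP (hp2 : 2 < p) (hreg : (classNumber (CyclotomicField p ℚ)).Coprime p)
    {q : ℕ} (hq : q.Prime) (hord : orderOf ((q : ℕ) : ZMod (p ^ 2)) = p * (p - 1))
    (hA : IsAdic (maximalIdeal A)) (hfin : Finite (ResidueField A)) (h2 : (p : A) ∈ maximalIdeal A)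
    {ρ : (QB ≃ₐ[ℚ] QB) →* GL (Fin n) A}
    (hρ : ∀ i j, Continuous fun σ => (ρ σ : Matrix (Fin n) (Fin n) A) i j)
    (hres : ∀ σ : QB ≃ₐ[ℚ] QB, σ z = z → ∃ M : ℕ,
      InI (maximalIdeal A) (((ρ σ : Matrix (Fin n) (Fin n) A) - 1) ^ M))
    (hu : ∀ (l : ℕ) [Fact l.Prime] (ι : QB →ₐ[ℚ] PadicAlgCl l), l ≠ p → l ≠ q →
      ∀ (σ : QB ≃ₐ[ℚ] QB) (τ : Au l), (∀ x, τ (ι x) = ι (σ x)) → Inert τ → ρ σ = 1)
    {ρ' : (QB ≃ₐ[ℚ] QB) →* GL (Fin n') A}
    (hρ' : ∀ i j, Continuous fun σ => (ρ' σ : Matrix (Fin n') (Fin n') A) i j)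
    (hres' : ∀ σ : QB ≃ₐ[ℚ] QB, σ z = z → ∃ M : ℕ,
      InI (maximalIdeal A) (((ρ' σ : Matrix (Fin n') (Fin n') A) - 1) ^ M))
    (hu' : ∀ (l : ℕ) [Fact l.Prime] (ι : QB →ₐ[ℚ] PadicAlgCl l), l ≠ p → l ≠ q →
      ∀ (σ : QB ≃ₐ[ℚ] QB) (τ : Au l), (∀ x, τ (ι x) = ι (σ x)) → Inert τ → ρ' σ = 1)
    (ι₀ : QB →ₐ[ℚ] PadicAlgCl p) {T : Matrix (Fin n') (Fin n) F}
    (hD : ∀ δ ∈ DP ι₀, T * mt F ρ δ = mt F ρ' δ * T) (g : QB ≃ₐ[ℚ] QB) :
    T * mt F ρ g = mt F ρ' g * T :=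
  grf_iff.1 (subP hz hp2 hreg hq hord hA hfin h2 (dsum_cont hρ hρ')
    (fun σ hσ => dsum_res (hres σ hσ) (hres' σ hσ))
    (fun l _ ι h1 h2 σ τ h3 h4 => dsum_one (hu l ι h1 h2 σ τ h3 h4) (hu' l ι h1 h2 σ τ h3 h4)) ι₀
    (fun δ hδ => grf_iff.2 (hD δ hδ)) g)

include hz in
/-- **Potential isomorphisms.** -/
theorem rigP (hp2 : 2 < p) (hreg : (classNumber (CyclotomicField p ℚ)).Coprime p)
    {q : ℕ} (hq : q.Prime) (hord : orderOf ((q : ℕ) : ZMod (p ^ 2)) = p * (p - 1))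
    (hA : IsAdic (maximalIdeal A)) (hfin : Finite (ResidueField A)) (h2 : (p : A) ∈ maximalIdeal A)
    {ρ : (QB ≃ₐ[ℚ] QB) →* GL (Fin n) A}
    (hρ : ∀ i j, Continuous fun σ => (ρ σ : Matrix (Fin n) (Fin n) A) i j)
    (hres : ∀ σ : QB ≃ₐ[ℚ] QB, σ z = z → ∃ M : ℕ,
      InI (maximalIdeal A) (((ρ σ : Matrix (Fin n) (Fin n) A) - 1) ^ M))
    (hu : ∀ (l : ℕ) [Fact l.Prime] (ι : QB →ₐ[ℚ] PadicAlgCl l), l ≠ p → l ≠ q →
      ∀ (σ : QB ≃ₐ[ℚ] QB) (τ : Au l), (∀ x, τ (ι x) = ι (σ x)) → Inert τ → ρ σ = 1)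
    {ρ' : (QB ≃ₐ[ℚ] QB) →* GL (Fin n) A}
    (hρ' : ∀ i j, Continuous fun σ => (ρ' σ : Matrix (Fin n) (Fin n) A) i j)
    (hres' : ∀ σ : QB ≃ₐ[ℚ] QB, σ z = z → ∃ M : ℕ,
      InI (maximalIdeal A) (((ρ' σ : Matrix (Fin n) (Fin n) A) - 1) ^ M))
    (hu' : ∀ (l : ℕ) [Fact l.Prime] (ι : QB →ₐ[ℚ] PadicAlgCl l), l ≠ p → l ≠ q →
      ∀ (σ : QB ≃ₐ[ℚ] QB) (τ : Au l), (∀ x, τ (ι x) = ι (σ x)) → Inert τ → ρ' σ = 1)
    (ι₀ : QB →ₐ[ℚ] PadicAlgCl p)
    {D' : Subgroup (QB ≃ₐ[ℚ] QB)} {R : Set (QB ≃ₐ[ℚ] QB)} (hRf : R.Finite)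
    (hR : ∀ δ ∈ DP ι₀, ∃ r ∈ R, r⁻¹ * δ ∈ D')
    {T : Matrix (Fin n) (Fin n) F} (hT : IsUnit T)
    (hD' : ∀ δ ∈ D', T * mt F ρ δ = mt F ρ' δ * T)
    (hirr : ∀ U : Subgroup (QB ≃ₐ[ℚ] QB), IsOpen (U : Set (QB ≃ₐ[ℚ] QB)) →
      ∀ X : Matrix (Fin n) (Fin n) F,
      (∀ σ ∈ U, X * mt F ρ σ = mt F ρ σ * X) → ∃ c : F, X = c • 1) :
    ∃ χ : (QB ≃ₐ[ℚ] QB) →* Fˣ, IsOpen (χ.ker : Set (QB ≃ₐ[ℚ] QB)) ∧
      ∀ σ, T * mt F ρ σ = (χ σ : F) • (mt F ρ' σ * T) :=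
  rig hA hρ hρ' (D := DP ι₀) (densP hz hp2 hreg hq hord hA hfin h2 (dsum_cont hρ hρ')
    (fun σ hσ => dsum_res (hres σ hσ) (hres' σ hσ))
    (fun l _ ι h1 h2 σ τ h3 h4 => dsum_one (hu l ι h1 h2 σ τ h3 h4) (hu' l ι h1 h2 σ τ h3 h4)) ι₀)
    hRf hR hT hD' hirr

end cls

end Pool.Agent.J6H32.RP
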